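import Pool.Agent.Lib_helper5.TC.Two

/-!
# Transposition and the theorem
-/

set_option autoImplicit false

namespace Pool.Agent.Lib_helper5.TC

open Finset

theorem len_eq (m n : ℕ) : n + m + 1 = m + n + 1 := by omega

/-- the transposed path -/
def tp {m n : ℕ} (p : Fin (m + n + 1) → Cell m n) : Fin (n + m + 1) → Cell n m :=
  fun k => (p (Fin.cast (len_eq m n) k)).swap

theorem step_swap {m n : ℕ} {u v : Cell m n} : Step (Prod.swap u : Cell n m) v.swap ↔ Step u v := by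
  unfold Step
  rw [Prod.fst_swap, Prod.fst_swap, Prod.snd_swap, Prod.snd_swap]
  omega

theorem tp_tp {m n : ℕ} (p : Fin (m + n + 1) → Cell m n) : tp (tp p) = p := by
  funext k
  rfl

theorem tp_castSucc {m n : ℕ} (p : Fin (m + n + 1) → Cell m n) (k : Fin (n + m)) :
    tp p k.castSucc = (p (Fin.castSucc (Fin.cast (Nat.add_comm n m) k))).swap := rfl

theorem tp_succ {m n : ℕ} (p : Fin (m + n + 1) → Cell m n) (k : Fin (n + m)) :
    tp p k.succ = (p (Fin.succ (Fin.cast (Nat.add_comm n m) k))).swap := rfl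

theorem tp_last {m n : ℕ} (p : Fin (m + n + 1) → Cell m n) :
    tp p (Fin.last (n + m)) = (p (Fin.last (m + n))).swap := by
  unfold tp
  congr 2
  exact Fin.ext (Nat.add_comm n m)

theorem isPath_tp {m n : ℕ} {p : Fin (m + n + 1) → Cell m n} (hp : IsPath p) : IsPath (tp p) := by
  refine ⟨?_, ?_, fun k => ?_⟩
  · show (p (Fin.cast (len_eq m n) 0)).swap = (0, 0)
    have : Fin.cast (len_eq m n) 0 = 0 := Fin.ext rfl
    rw [this, hp.1]
    rfl
  · rw [tp_last, hp.2.1]
    rfl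
  · rw [tp_castSucc, tp_succ, step_swap]
    exact hp.2.2 _

/-- the transposed tableau -/
def tT {m n : ℕ} (T : Cell m n ≃ Fin ((m + 1) * (n + 1))) : Cell n m ≃ Fin ((n + 1) * (m + 1)) :=
  ((Equiv.prodComm _ _).trans T).trans (finCongr (Nat.mul_comm _ _))

theorem tT_apply {m n : ℕ} (T : Cell m n ≃ Fin ((m + 1) * (n + 1))) (a : Cell n m) :
    (tT T a).val = (T a.swap).val := rfl

theorem isSYT_tT {m n : ℕ} {T : Cell m n ≃ Fin ((m + 1) * (n + 1))} (h : IsSYT T) :
    IsSYT (tT T) := by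
  refine ⟨fun i i' j hi => ?_, fun i j j' hj => ?_⟩
  · rw [Fin.lt_def, tT_apply, tT_apply]
    exact h.2 j i i' hi
  · rw [Fin.lt_def, tT_apply, tT_apply]
    exact h.1 j j' i hj

theorem produces_tT {m n : ℕ} {T : Cell m n ≃ Fin ((m + 1) * (n + 1))}
    {p : Fin (m + n + 1) → Cell m n} (h : Produces T p) : Produces (tT T) (tp p) := by
  refine ⟨?_, fun k => ⟨?_, fun u hu => ?_⟩⟩
  · rw [tp_last, h.1]
    rfl
  · rw [tp_castSucc, tp_succ, step_swap]
    exact (h.2 _).1
  · rw [tp_succ] at hu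
    rw [tp_castSucc, Fin.le_def, tT_apply, tT_apply, Prod.swap_swap]
    refine (h.2 _).2 u.swap ?_
    rw [← step_swap, Prod.swap_swap]
    exact hu

theorem N_le_tp {m n : ℕ} (p : Fin (m + n + 1) → Cell m n) : N p ≤ N (tp p) := by
  unfold N
  refine Nat.card_le_card_of_injective
    (fun T : {T : Cell m n ≃ Fin ((m + 1) * (n + 1)) // IsSYT T ∧ Produces T p} =>
      (⟨tT T.1, isSYT_tT T.2.1, produces_tT T.2.2⟩ :
        {T : Cell n m ≃ Fin ((n + 1) * (m + 1)) // IsSYT T ∧ Produces T (tp p)})) ?_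
  intro T T' h
  have h1 : tT T.1 = tT T'.1 := congrArg Subtype.val h
  refine Subtype.ext (Equiv.ext fun a => ?_)
  have h2 := DFunLike.congr_fun h1 a.swap
  refine Fin.ext ?_
  have h3 := congrArg Fin.val h2
  rw [tT_apply, tT_apply, Prod.swap_swap] at h3
  exact h3

theorem N_tp {m n : ℕ} (p : Fin (m + n + 1) → Cell m n) : N (tp p) = N p := by
  refine le_antisymm ?_ (N_le_tp p)
  have := N_le_tp (tp p)
  rw [tp_tp] at this
  exact this

theorem BoxStatement.tp {m n : ℕ} (h : BoxStatement n m) : BoxStatement m n := by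
  intro p p₁ p₂ hp hp₁ hp₂ ⟨k₁, hk₁⟩ ⟨k₂, hk₂⟩
  have := h (TC.tp p) (TC.tp p₂) (TC.tp p₁) (isPath_tp hp) (isPath_tp hp₂) (isPath_tp hp₁)
    ⟨Fin.cast (len_eq n m) k₂, by
      show (p₂ _).swap = _
      have : (Fin.cast (len_eq m n) (Fin.cast (len_eq n m) k₂)) = k₂ := rfl
      rw [this, hk₂]
      rfl⟩
    ⟨Fin.cast (len_eq n m) k₁, by
      show (p₁ _).swap = _
      have : (Fin.cast (len_eq m n) (Fin.cast (len_eq n m) k₁)) = k₁ := rfl
      rw [this, hk₁]
      rfl⟩
  rw [N_tp, N_tp, N_tp, max_comm] at this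
  exact this

theorem main_rows {m : ℕ} (hm : m ≤ 2) (n : ℕ) : BoxStatement m n := by
  obtain rfl | rfl | rfl : m = 0 ∨ m = 1 ∨ m = 2 := by omega
  · exact box1 n
  · exact box2 n
  · exact box3 n

theorem main (m n : ℕ) (h : m ≤ 2 ∨ n ≤ 2) : BoxStatement m n := by
  rcases h with h | h
  · exact main_rows h n
  · exact (main_rows h m).tp

end Pool.Agent.Lib_helper5.TC
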