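import Mathlib

/-!
# Tableaux of a box and the paths they produce: definitions
-/

set_option autoImplicit false

namespace Pool.Agent.Lib_helper5.TC

/-- the cells of the box with `m + 1` rows and `n + 1` columns -/
abbrev Cell (m n : ℕ) : Type := Fin (m + 1) × Fin (n + 1)

/-- standard Young tableaux of the box -/
def IsSYT {m n : ℕ} (T : Cell m n ≃ Fin ((m + 1) * (n + 1))) : Prop :=
  (∀ i i' j, i < i' → T (i, j) < T (i', j)) ∧ ∀ i j j', j < j' → T (i, j) < T (i, j')

/-- `v` is `u + (1,0)` or `u + (0,1)` -/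
def Step {m n : ℕ} (u v : Cell m n) : Prop :=
  (v.1.val = u.1.val + 1 ∧ v.2.val = u.2.val) ∨ (v.1.val = u.1.val ∧ v.2.val = u.2.val + 1)

/-- up-right paths from the first to the last cell -/
def IsPath {m n : ℕ} (p : Fin (m + n + 1) → Cell m n) : Prop :=
  p 0 = (0, 0) ∧ p (Fin.last (m + n)) = (Fin.last m, Fin.last n) ∧
    ∀ k : Fin (m + n), Step (p k.castSucc) (p k.succ)

/-- `p` is the path produced by `T`: it ends in the last cell, and the cell before `v` is
whichever of `v - (1,0)`, `v - (0,1)` lies in the box and, if both do, the one with the larger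
value of `T` -/
def Produces {m n : ℕ} (T : Cell m n ≃ Fin ((m + 1) * (n + 1))) (p : Fin (m + n + 1) → Cell m n) :
    Prop :=
  p (Fin.last (m + n)) = (Fin.last m, Fin.last n) ∧
    ∀ k : Fin (m + n), Step (p k.castSucc) (p k.succ) ∧
      ∀ u, Step u (p k.succ) → T u ≤ T (p k.castSucc)

/-- number of standard tableaux which produce `p` -/
noncomputable def N {m n : ℕ} (p : Fin (m + n + 1) → Cell m n) : ℕ :=
  Nat.card {T : Cell m n ≃ Fin ((m + 1) * (n + 1)) // IsSYT T ∧ Produces T p}

/-- the statement for one box: the maximum is attained at a corner path -/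
def BoxStatement (m n : ℕ) : Prop :=
  ∀ p p₁ p₂ : Fin (m + n + 1) → Cell m n, IsPath p → IsPath p₁ → IsPath p₂ →
    (∃ k, p₁ k = (0, Fin.last n)) → (∃ k, p₂ k = (Fin.last m, 0)) → N p ≤ max (N p₁) (N p₂)

end Pool.Agent.Lib_helper5.TC
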