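import Mathlib

/-!
# Three rows: weighted lattice paths in the chamber `x ≥ y ≥ z ≥ 0`
-/

set_option autoImplicit false

namespace Pool.Agent.Lib_helper5.TC

/-- the solution of `u = s + P u`, `P` = sum over the removable cells of the shape `(x,y,z)` -/
def G (s : ℕ → ℕ → ℕ → ℕ) (x y z : ℕ) : ℕ :=
  s x y z + ((if _h : y < x then G s (x - 1) y z else 0) +
    (if _h : z < y then G s x (y - 1) z else 0) + (if _h : 0 < z then G s x y (z - 1) else 0))
termination_by x + y + z
decreasing_by all_goals omega

theorem G_eq (s : ℕ → ℕ → ℕ → ℕ) (x y z : ℕ) :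
    G s x y z = s x y z + ((if y < x then G s (x - 1) y z else 0) +
      (if z < y then G s x (y - 1) z else 0) + (if 0 < z then G s x y (z - 1) else 0)) := by
  rw [G]
  simp only [dite_eq_ite]

/-- induction over shapes -/
theorem shape_ind {Q : ℕ → ℕ → ℕ → Prop}
    (h : ∀ x y z, z ≤ y → y ≤ x → (y < x → Q (x - 1) y z) → (z < y → Q x (y - 1) z) →
      (0 < z → Q x y (z - 1)) → Q x y z) : ∀ x y z, z ≤ y → y ≤ x → Q x y z := by
  have key : ∀ n x y z, x + y + z = n → z ≤ y → y ≤ x → Q x y z := by
    intro n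
    induction n using Nat.strong_induction_on with
    | _ n ih =>
      intro x y z hn hzy hyx
      refine h x y z hzy hyx (fun h1 => ?_) (fun h1 => ?_) (fun h1 => ?_)
      · exact ih (x - 1 + y + z) (by omega) _ _ _ rfl hzy (by omega)
      · exact ih (x + (y - 1) + z) (by omega) _ _ _ rfl (by omega) (by omega)
      · exact ih (x + y + (z - 1)) (by omega) _ _ _ rfl (by omega) hyx
  intro x y z h1 h2
  exact key _ x y z rfl h1 h2

/-- monotonicity in the source -/
theorem G_mono {s s' : ℕ → ℕ → ℕ → ℕ} (h : ∀ x y z, z ≤ y → y ≤ x → s x y z ≤ s' x y z) :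
    ∀ x y z, z ≤ y → y ≤ x → G s x y z ≤ G s' x y z := by
  refine shape_ind fun x y z h1 h2 h3 h4 h5 => ?_
  rw [G_eq s, G_eq s']
  refine Nat.add_le_add (h _ _ _ h1 h2) (Nat.add_le_add (Nat.add_le_add ?_ ?_) ?_)
  · split_ifs with h6
    · exact h3 h6
    · exact le_rfl
  · split_ifs with h6
    · exact h4 h6
    · exact le_rfl
  · split_ifs with h6
    · exact h5 h6
    · exact le_rfl

/-- number of standard tableaux of shape `(x,y,z)` -/
def f : ℕ → ℕ → ℕ → ℕ := G fun x y z => if x = 0 ∧ y = 0 ∧ z = 0 then 1 else 0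

/-- marks at the level `b` of the first two rows -/
def U (b : ℕ) : ℕ → ℕ → ℕ → ℕ := G fun x y z => if x = b ∧ y = b then f x y z else 0

/-- marks at the level `b` of the first two rows and then at the level `c` of the last two -/
def W (b c : ℕ) : ℕ → ℕ → ℕ → ℕ := G fun x y z => if y = c ∧ z = c then U b x y z else 0

theorem f_eq {x y z : ℕ} (h : 0 < x + y + z) :
    f x y z = (if y < x then f (x - 1) y z else 0) + (if z < y then f x (y - 1) z else 0) +
      (if 0 < z then f x y (z - 1) else 0) := by
  unfold f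
  rw [G_eq, if_neg (by omega), zero_add]

theorem f_zero : f 0 0 0 = 1 := by
  unfold f
  rw [G_eq]
  simp

theorem U_eq (b x y z : ℕ) :
    U b x y z = (if x = b ∧ y = b then f x y z else 0) + ((if y < x then U b (x - 1) y z else 0) +
      (if z < y then U b x (y - 1) z else 0) + (if 0 < z then U b x y (z - 1) else 0)) := by
  unfold U
  rw [G_eq]

/-- the hook length formula for three rows -/
theorem f_hook : ∀ x y z, z ≤ y → y ≤ x →
    (f x y z : ℚ) = (x + y + z).factorial * ((x - y + 1) * (x - z + 2) * (y - z + 1)) /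
      ((x + 2).factorial * (y + 1).factorial * z.factorial) := by
  refine shape_ind fun x y z h1 h2 h3 h4 h5 => ?_
  rcases Nat.eq_zero_or_pos (x + y + z) with h0 | h0
  · obtain ⟨rfl, rfl, rfl⟩ : x = 0 ∧ y = 0 ∧ z = 0 := by omega
    rw [f_zero]
    simp
  · rw [f_eq h0]
    push_cast
    have e1 : ((if y < x then (f (x - 1) y z : ℚ) else 0)) =
        (x + y + z - 1).factorial * ((x - y) * (x - z + 1) * (y - z + 1)) * (x + 2) /
          ((x + 2).factorial * (y + 1).factorial * z.factorial) := by
      split_ifs with h6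
      · rw [h3 h6]
        obtain ⟨x', rfl⟩ : ∃ x', x = x' + 1 := ⟨x - 1, by omega⟩
        have e2 : x' + 1 - 1 + y + z = x' + 1 + y + z - 1 := by omega
        rw [e2]
        have e3 : (x' + 1 + 2).factorial = (x' + 3) * (x' + 2).factorial := by
          rw [show x' + 1 + 2 = (x' + 2) + 1 by ring, Nat.factorial_succ]
        simp only [Nat.add_sub_cancel]
        rw [e3]
        push_cast
        field_simp
        ring
      · have : x = y := by omega
        rw [this]
        simp
    have e2 : ((if z < y then (f x (y - 1) z : ℚ) else 0)) =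
        (x + y + z - 1).factorial * ((x - y + 2) * (x - z + 2) * (y - z)) * (y + 1) /
          ((x + 2).factorial * (y + 1).factorial * z.factorial) := by
      split_ifs with h6
      · rw [h4 h6]
        obtain ⟨y', rfl⟩ : ∃ y', y = y' + 1 := ⟨y - 1, by omega⟩
        have e2 : x + (y' + 1 - 1) + z = x + (y' + 1) + z - 1 := by omega
        rw [e2]
        have e3 : (y' + 1 + 1).factorial = (y' + 2) * (y' + 1).factorial := by
          rw [Nat.factorial_succ]
        simp only [Nat.add_sub_cancel]
        rw [e3]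
        push_cast
        field_simp
        ring
      · have : y = z := by omega
        rw [this]
        simp
    have e3 : ((if 0 < z then (f x y (z - 1) : ℚ) else 0)) =
        (x + y + z - 1).factorial * ((x - y + 1) * (x - z + 3) * (y - z + 2)) * z /
          ((x + 2).factorial * (y + 1).factorial * z.factorial) := by
      split_ifs with h6
      · rw [h5 h6]
        obtain ⟨z', rfl⟩ : ∃ z', z = z' + 1 := ⟨z - 1, by omega⟩
        have e2 : x + y + (z' + 1 - 1) = x + y + (z' + 1) - 1 := by omega
        rw [e2]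
        have e3 : (z' + 1).factorial = (z' + 1) * z'.factorial := by
          rw [Nat.factorial_succ]
        simp only [Nat.add_sub_cancel]
        rw [e3]
        push_cast
        field_simp
        ring
      · have : z = 0 := by omega
        rw [this]
        simp
    rw [e1, e2, e3]
    obtain ⟨n, hn⟩ : ∃ n, x + y + z = n + 1 := ⟨x + y + z - 1, by omega⟩
    have hnq : (n : ℚ) = x + y + z - 1 := by
      have : ((x + y + z : ℕ) : ℚ) = ((n + 1 : ℕ) : ℚ) := by rw [hn]
      push_cast at this
      linarith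
    rw [hn, Nat.add_sub_cancel, Nat.factorial_succ n]
    push_cast
    rw [← add_div, ← add_div]
    congr 1
    rw [hnq]
    ring

/-! ## The key lemma -/

theorem U_zero_of_lt {b : ℕ} : ∀ x y z, z ≤ y → y ≤ x → y < b → U b x y z = 0 := by
  refine shape_ind fun x y z h1 h2 h3 h4 h5 h => ?_
  rw [U_eq, if_neg (by omega)]
  have e1 : (if y < x then U b (x - 1) y z else 0) = 0 := by
    split_ifs with h6
    · exact h3 h6 h
    · rfl
  have e2 : (if z < y then U b x (y - 1) z else 0) = 0 := by
    split_ifs with h6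
    · exact h4 h6 (by omega)
    · rfl
  have e3 : (if 0 < z then U b x y (z - 1) else 0) = 0 := by
    split_ifs with h6
    · exact h5 h6 h
    · rfl
  rw [e1, e2, e3]

theorem U_bb (b c : ℕ) :
    U b b b c = f b b c + (if 0 < c then U b b b (c - 1) else 0) := by
  rw [U_eq, if_pos ⟨rfl, rfl⟩, if_neg (lt_irrefl b)]
  have e2 : (if c < b then U b b (b - 1) c else 0) = 0 := by
    split_ifs with h6
    · exact U_zero_of_lt _ _ _ (by omega) (by omega) (by omega)
    · rfl
  rw [e2]
  ring

theorem U_b1b (b c : ℕ) :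
    U b (b + 1) b c = U b b b c + (if 0 < c then U b (b + 1) b (c - 1) else 0) := by
  rw [U_eq, if_neg (by omega), if_pos (by omega), Nat.add_sub_cancel]
  have e2 : (if c < b then U b (b + 1) (b - 1) c else 0) = 0 := by
    split_ifs with h6
    · exact U_zero_of_lt _ _ _ (by omega) (by omega) (by omega)
    · rfl
  rw [e2]
  ring

/-- closed form of `U b b b c` -/
theorem U_bb_closed (b : ℕ) : ∀ c, c ≤ b → (U b b b c : ℚ) =
    (2 * b + c + 1).factorial / ((2 * b + 1) * (b + 2).factorial * (b + 1).factorial *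
      c.factorial) * ((b + 1) * (b + 2) - (2 * b + 1) * c * (2 * b + 4 - c) / (2 * b + 3)) := by
  intro c
  induction c with
  | zero =>
    intro _
    rw [U_bb b 0, if_neg (lt_irrefl 0), add_zero, f_hook b b 0 (Nat.zero_le _) le_rfl]
    have e : (2 * b + 0 + 1).factorial = (2 * b + 1) * (2 * b).factorial := by
      rw [add_zero, Nat.factorial_succ]
    rw [e, show b + b + 0 = 2 * b by ring]
    push_cast
    field_simp
    ring
  | succ c ih =>
    intro hc
    have ih' := ih (by omega)
    rw [U_bb b (c + 1), if_pos (Nat.succ_pos c), Nat.add_sub_cancel]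
    push_cast
    rw [ih', f_hook b b (c + 1) hc le_rfl]
    have e1 : (2 * b + (c + 1) + 1).factorial = (2 * b + c + 2) * (2 * b + c + 1).factorial := by
      rw [show 2 * b + (c + 1) + 1 = (2 * b + c + 1) + 1 by ring, Nat.factorial_succ]
    have e2 : b + b + (c + 1) = 2 * b + c + 1 := by ring
    rw [e1, e2, Nat.factorial_succ c]
    push_cast
    field_simp
    ring

/-- closed form of `U b (b+1) b c` -/
theorem U_b1b_closed (b : ℕ) : ∀ c, c ≤ b → (U b (b + 1) b c : ℚ) =
    (2 * b + c + 2).factorial / ((2 * b + 1) * (2 * b + 2) * (b + 2).factorial *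
      (b + 1).factorial * c.factorial) *
      ((b + 1) * (b + 2) - (2 * b + 1) * (b + 1) * c * (2 * b + 5 - c) /
        ((2 * b + 3) * (b + 2))) := by
  intro c
  induction c with
  | zero =>
    intro _
    rw [U_b1b b 0, if_neg (lt_irrefl 0), add_zero,
      U_bb_closed b 0 (Nat.zero_le _)]
    have e : (2 * b + 0 + 2).factorial = (2 * b + 2) * (2 * b + 0 + 1).factorial := by
      rw [show 2 * b + 0 + 2 = (2 * b + 0 + 1) + 1 by ring, Nat.factorial_succ]
    rw [e]
    push_cast
    field_simp
    ring
  | succ c ih =>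
    intro hc
    have ih' := ih (by omega)
    rw [U_b1b b (c + 1), if_pos (Nat.succ_pos c), Nat.add_sub_cancel]
    push_cast
    rw [ih', U_bb_closed b (c + 1) hc]
    have e1 : (2 * b + (c + 1) + 2).factorial = (2 * b + c + 3) * (2 * b + c + 2).factorial := by
      rw [show 2 * b + (c + 1) + 2 = (2 * b + c + 2) + 1 by ring, Nat.factorial_succ]
    have e2 : (2 * b + (c + 1) + 1).factorial = (2 * b + c + 2).factorial := by
      rw [show 2 * b + (c + 1) + 1 = 2 * b + c + 2 by ring]
    rw [e1, e2, Nat.factorial_succ c]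
    push_cast
    field_simp
    ring

/-- the polynomial inequality -/
theorem poly_ineq (c e : ℕ) :
    ((c + e : ℚ) + 3) * (2 * (c + e) + c + 2) * ((c + e + 2) ^ 2 * (2 * (c + e) + 3) -
      (2 * (c + e) + 1) * c * (2 * (c + e) + 5 - c)) ≤
    4 * (2 * (c + e) + 1) * (e + 3) * (e + 1) * ((2 * (c + e) + 3) * (c + e + 2)) := by
  have h0 : (0 : ℚ) ≤ 3 * (c * (c - 1) * (c - 2)) := by
    rcases Nat.lt_or_ge c 2 with h | h
    · interval_cases c <;> norm_num
    · have h2 : (2 : ℚ) ≤ c := by exact_mod_cast h
      have : 0 ≤ (c : ℚ) * (c - 1) * (c - 2) :=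
        mul_nonneg (mul_nonneg (by linarith) (by linarith)) (by linarith)
      linarith
  have h1 : (0 : ℚ) ≤ 108 * e + 228 * c * e + 155 * c ^ 2 * e + 34 * c ^ 3 * e + 270 * e ^ 2 +
      389 * c * e ^ 2 + 151 * c ^ 2 * e ^ 2 + 10 * c ^ 3 * e ^ 2 + 240 * e ^ 3 +
      207 * c * e ^ 3 + 32 * c ^ 2 * e ^ 3 + 90 * e ^ 4 + 34 * c * e ^ 4 + 12 * e ^ 5 := by
    positivity
  have h2 : 4 * (2 * ((c : ℚ) + e) + 1) * (e + 3) * (e + 1) *
      ((2 * (c + e) + 3) * (c + e + 2)) - ((c + e : ℚ) + 3) * (2 * (c + e) + c + 2) *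
      ((c + e + 2) ^ 2 * (2 * (c + e) + 3) - (2 * (c + e) + 1) * c * (2 * (c + e) + 5 - c)) =
      3 * (c * (c - 1) * (c - 2)) + (108 * e + 228 * c * e + 155 * c ^ 2 * e +
      34 * c ^ 3 * e + 270 * e ^ 2 + 389 * c * e ^ 2 + 151 * c ^ 2 * e ^ 2 +
      10 * c ^ 3 * e ^ 2 + 240 * e ^ 3 + 207 * c * e ^ 3 + 32 * c ^ 2 * e ^ 3 + 90 * e ^ 4 +
      34 * c * e ^ 4 + 12 * e ^ 5) := by
    ring
  linarith

/-- the boundary case of the key lemma -/
theorem U_special (b c : ℕ) (hc : c ≤ b) : U b (b + 1) b c ≤ f (b + 1) b c := by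
  obtain ⟨e, rfl⟩ : ∃ e, b = c + e := ⟨b - c, by omega⟩
  have h1 := U_b1b_closed (c + e) c hc
  have h2 := f_hook (c + e + 1) (c + e) c hc (by omega)
  have h3 := poly_ineq c e
  have h4 : (U (c + e) (c + e + 1) (c + e) c : ℚ) ≤ (f (c + e + 1) (c + e) c : ℚ) := by
    rw [h1, h2]
    have e1 : (2 * (c + e) + c + 2).factorial =
        (2 * (c + e) + c + 2) * (2 * (c + e) + c + 1).factorial := by
      rw [show 2 * (c + e) + c + 2 = (2 * (c + e) + c + 1) + 1 by ring, Nat.factorial_succ]
    have e2 : c + e + 1 + (c + e) + c = 2 * (c + e) + c + 1 := by ring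
    have e3 : (c + e + 1 + 2).factorial = (c + e + 3) * (c + e + 2).factorial := by
      rw [show c + e + 1 + 2 = (c + e + 2) + 1 by ring, Nat.factorial_succ]
    rw [e1, e2, e3]
    push_cast
    set F : ℚ := ((2 * (c + e) + c + 1).factorial : ℚ)
    set A : ℚ := ((c + e + 2).factorial : ℚ)
    set B : ℚ := ((c + e + 1).factorial : ℚ)
    set D : ℚ := (c.factorial : ℚ)
    have hF : 0 < F := by positivity
    have hA : 0 < A := by positivity
    have hB : 0 < B := by positivity
    have hD : 0 < D := by positivity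
    have hx : (0 : ℚ) < 2 * ((c : ℚ) + e) + 1 := by positivity
    have hy : (0 : ℚ) < 2 * ((c : ℚ) + e) + 3 := by positivity
    have hz : (0 : ℚ) < (c : ℚ) + e + 2 := by positivity
    have hw : (0 : ℚ) < (c : ℚ) + e + 3 := by positivity
    have hv : (0 : ℚ) < (c : ℚ) + e + 1 := by positivity
    have e4 : (2 * ((c : ℚ) + e) + c + 2) * F / ((2 * (c + e) + 1) * (2 * (c + e) + 2) * A * B * D) *
        ((c + e + 1) * (c + e + 2) - (2 * (c + e) + 1) * (c + e + 1) * c *
          (2 * (c + e) + 5 - c) / ((2 * (c + e) + 3) * (c + e + 2))) =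
        F / (A * B * D) * ((((c + e : ℚ) + 3) * (2 * (c + e) + c + 2) *
          ((c + e + 2) ^ 2 * (2 * (c + e) + 3) -
          (2 * (c + e) + 1) * c * (2 * (c + e) + 5 - c))) /
          (2 * (2 * (c + e) + 1) * (c + e + 3) * ((2 * (c + e) + 3) * (c + e + 2)))) := by
      field_simp
    have e5 : F * (((c : ℚ) + e + 1 - (c + e) + 1) * (c + e + 1 - c + 2) * (c + e - c + 1)) /
        ((c + e + 3) * A * B * D) = F / (A * B * D) *
        ((4 * (2 * ((c : ℚ) + e) + 1) * (e + 3) * (e + 1) *
          ((2 * (c + e) + 3) * (c + e + 2))) /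
          (2 * (2 * (c + e) + 1) * (c + e + 3) * ((2 * (c + e) + 3) * (c + e + 2)))) := by
      field_simp
      ring
    rw [e4, e5]
    gcongr
  exact_mod_cast h4

/-- **Key lemma**: on average the first two rows are at most once both equal to `b`, for every
shape whose first row is longer than `b` -/
theorem key (b : ℕ) : ∀ x y z, z ≤ y → y ≤ x → b < x → U b x y z ≤ f x y z := by
  refine shape_ind fun x y z h1 h2 h3 h4 h5 hb => ?_
  by_cases hs : x = b + 1 ∧ y = b
  · obtain ⟨rfl, rfl⟩ := hs
    exact U_special y z h1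
  · rw [U_eq, if_neg (by omega), zero_add, f_eq (by omega)]
    refine Nat.add_le_add (Nat.add_le_add ?_ ?_) ?_
    · split_ifs with h6
      · by_cases h7 : b < x - 1
        · exact h3 h6 h7
        · rw [U_zero_of_lt _ _ _ h1 (by omega) (by omega)]
          exact Nat.zero_le _
      · exact le_rfl
    · split_ifs with h6
      · exact h4 h6 hb
      · exact le_rfl
    · split_ifs with h6
      · exact h5 h6 hb
      · exact le_rfl


/-! ## Duality -/

/-- concatenation -/
theorem f_concat (j : ℕ) : ∀ x y z, z ≤ y → y ≤ x →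
    f j j j * f x y z ≤ f (j + x) (j + y) (j + z) := by
  refine shape_ind fun x y z h1 h2 h3 h4 h5 => ?_
  rcases Nat.eq_zero_or_pos (x + y + z) with h0 | h0
  · obtain ⟨rfl, rfl, rfl⟩ : x = 0 ∧ y = 0 ∧ z = 0 := by omega
    rw [f_zero, mul_one]
    exact le_rfl
  · rw [f_eq h0, f_eq (x := j + x) (y := j + y) (z := j + z) (by omega), mul_add, mul_add]
    refine Nat.add_le_add (Nat.add_le_add ?_ ?_) ?_
    · by_cases h6 : y < x
      · rw [if_pos h6, if_pos (by omega), show j + x - 1 = j + (x - 1) by omega]
        exact h3 h6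
      · rw [if_neg h6, mul_zero]
        exact Nat.zero_le _
    · by_cases h6 : z < y
      · rw [if_pos h6, if_pos (by omega), show j + y - 1 = j + (y - 1) by omega]
        exact h4 h6
      · rw [if_neg h6, mul_zero]
        exact Nat.zero_le _
    · by_cases h6 : 0 < z
      · rw [if_pos h6, if_pos (by omega), show j + z - 1 = j + (z - 1) by omega]
        exact h5 h6
      · rw [if_neg h6, mul_zero]
        exact Nat.zero_le _


open Finset

theorem shift (K : ℕ) (g : ℕ → ℕ → ℕ) :
    ∑ x ∈ range (K + 1), (if 0 < x then g (x - 1) x else 0) =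
      ∑ x ∈ range (K + 1), (if x < K then g x (x + 1) else 0) := by
  rw [Finset.sum_range_succ', Finset.sum_range_succ, if_neg (lt_irrefl 0), if_neg (lt_irrefl K),
    add_zero, add_zero]
  refine Finset.sum_congr rfl fun x hx => ?_
  rw [if_pos (Nat.succ_pos x), if_pos (Finset.mem_range.1 hx), Nat.add_sub_cancel]

/-- number of completions to the box -/
def h (K x y z : ℕ) : ℕ := f (K - z) (K - y) (K - x)

/-- extension by zero -/
def ex (u : ℕ → ℕ → ℕ → ℕ) (x y z : ℕ) : ℕ := if z ≤ y ∧ y ≤ x then u x y z else 0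

theorem P_ex (s : ℕ → ℕ → ℕ → ℕ) (x y z : ℕ) :
    ex (G s) x y z = ex s x y z + (if z ≤ y ∧ y ≤ x then ((if 0 < x then ex (G s) (x - 1) y z
      else 0) + (if 0 < y then ex (G s) x (y - 1) z else 0) +
        (if 0 < z then ex (G s) x y (z - 1) else 0)) else 0) := by
  by_cases hv : z ≤ y ∧ y ≤ x
  · have e0 : ex (G s) x y z = G s x y z := if_pos hv
    have e0' : ex s x y z = s x y z := if_pos hv
    rw [e0, e0', if_pos hv, G_eq]
    congr 1
    congr 1
    · congr 1
      · by_cases h1 : y < x
        · rw [if_pos h1, if_pos (by omega)]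
          unfold ex
          rw [if_pos (by omega)]
        · rw [if_neg h1]
          by_cases h2 : 0 < x
          · rw [if_pos h2]
            unfold ex
            rw [if_neg (by omega)]
          · rw [if_neg h2]
      · by_cases h1 : z < y
        · rw [if_pos h1, if_pos (by omega)]
          unfold ex
          rw [if_pos (by omega)]
        · rw [if_neg h1]
          by_cases h2 : 0 < y
          · rw [if_pos h2]
            unfold ex
            rw [if_neg (by omega)]
          · rw [if_neg h2]
    · by_cases h1 : 0 < z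
      · rw [if_pos h1, if_pos h1]
        unfold ex
        rw [if_pos (by omega)]
      · rw [if_neg h1, if_neg h1]
  · have e0 : ex (G s) x y z = 0 := if_neg hv
    have e0' : ex s x y z = 0 := if_neg hv
    rw [e0, e0', if_neg hv]

theorem h_ex {K x y z : ℕ} (hx : x ≤ K) (hy : y ≤ K) (hz : z ≤ K) (hv : z ≤ y ∧ y ≤ x) :
    ex (h K) x y z = ((if x < K then ex (h K) (x + 1) y z else 0) +
      (if y < K then ex (h K) x (y + 1) z else 0) +
      (if z < K then ex (h K) x y (z + 1) else 0)) +
      (if x = K ∧ y = K ∧ z = K then 1 else 0) := by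
  have e0 : ex (h K) x y z = h K x y z := if_pos hv
  rw [e0]
  by_cases ht : x = K ∧ y = K ∧ z = K
  · obtain ⟨rfl, rfl, rfl⟩ := ht
    have e1 : h z z z z = 1 := by
      unfold h
      rw [Nat.sub_self, f_zero]
    rw [e1]
    simp
  · rw [if_neg ht, add_zero, show h K x y z = f (K - z) (K - y) (K - x) from rfl,
      f_eq (by omega)]
    have e1 : (if K - y < K - z then f (K - z - 1) (K - y) (K - x) else 0) =
        (if z < K then ex (h K) x y (z + 1) else 0) := by
      by_cases h1 : z < y
      · rw [if_pos (by omega), if_pos (by omega)]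
        unfold ex h
        rw [if_pos (by omega), Nat.sub_sub]
      · rw [if_neg (by omega)]
        by_cases h2 : z < K
        · rw [if_pos h2]
          unfold ex
          rw [if_neg (by omega)]
        · rw [if_neg h2]
    have e2 : (if K - x < K - y then f (K - z) (K - y - 1) (K - x) else 0) =
        (if y < K then ex (h K) x (y + 1) z else 0) := by
      by_cases h1 : y < x
      · rw [if_pos (by omega), if_pos (by omega)]
        unfold ex h
        rw [if_pos (by omega), Nat.sub_sub]
      · rw [if_neg (by omega)]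
        by_cases h2 : y < K
        · rw [if_pos h2]
          unfold ex
          rw [if_neg (by omega)]
        · rw [if_neg h2]
    have e3 : (if 0 < K - x then f (K - z) (K - y) (K - x - 1) else 0) =
        (if x < K then ex (h K) (x + 1) y z else 0) := by
      by_cases h1 : x < K
      · rw [if_pos (by omega), if_pos h1]
        unfold ex h
        rw [if_pos (by omega), Nat.sub_sub]
      · rw [if_neg (by omega), if_neg h1]
    rw [e1, e2, e3]
    ring


/-- duality: `G s` at the top of the box as a sum over the box -/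
theorem dual (K : ℕ) (s : ℕ → ℕ → ℕ → ℕ) : G s K K K =
    ∑ x ∈ range (K + 1), ∑ y ∈ range (K + 1), ∑ z ∈ range (K + 1), ex s x y z * ex (h K) x y z := by
  set u := ex (G s) with hu
  set v := ex (h K) with hv
  -- the left side of the summation by parts
  have hL : ∑ x ∈ range (K + 1), ∑ y ∈ range (K + 1), ∑ z ∈ range (K + 1), u x y z * v x y z =
      ∑ x ∈ range (K + 1), ∑ y ∈ range (K + 1), ∑ z ∈ range (K + 1), ex s x y z * v x y z +
      (∑ x ∈ range (K + 1), ∑ y ∈ range (K + 1), ∑ z ∈ range (K + 1),
        (if 0 < x then u (x - 1) y z * v x y z else 0) +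
      ∑ x ∈ range (K + 1), ∑ y ∈ range (K + 1), ∑ z ∈ range (K + 1),
        (if 0 < y then u x (y - 1) z * v x y z else 0) +
      ∑ x ∈ range (K + 1), ∑ y ∈ range (K + 1), ∑ z ∈ range (K + 1),
        (if 0 < z then u x y (z - 1) * v x y z else 0)) := by
    simp only [← Finset.sum_add_distrib]
    refine Finset.sum_congr rfl fun x _ => Finset.sum_congr rfl fun y _ =>
      Finset.sum_congr rfl fun z _ => ?_
    rw [hu, P_ex s x y z, ← hu]
    by_cases h1 : z ≤ y ∧ y ≤ x
    · rw [if_pos h1]
      split_ifs <;> ring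
    · have e : v x y z = 0 := by
        rw [hv]; exact if_neg h1
      rw [e]
      split_ifs <;> simp
  have hR : ∑ x ∈ range (K + 1), ∑ y ∈ range (K + 1), ∑ z ∈ range (K + 1), u x y z * v x y z =
      (∑ x ∈ range (K + 1), ∑ y ∈ range (K + 1), ∑ z ∈ range (K + 1),
        (if x < K then u x y z * v (x + 1) y z else 0) +
      ∑ x ∈ range (K + 1), ∑ y ∈ range (K + 1), ∑ z ∈ range (K + 1),
        (if y < K then u x y z * v x (y + 1) z else 0) +
      ∑ x ∈ range (K + 1), ∑ y ∈ range (K + 1), ∑ z ∈ range (K + 1),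
        (if z < K then u x y z * v x y (z + 1) else 0)) +
      ∑ x ∈ range (K + 1), ∑ y ∈ range (K + 1), ∑ z ∈ range (K + 1),
        (if x = K then (if y = K then (if z = K then u K K K else 0) else 0) else 0) := by
    simp only [← Finset.sum_add_distrib]
    refine Finset.sum_congr rfl fun x hx => Finset.sum_congr rfl fun y hy =>
      Finset.sum_congr rfl fun z hz => ?_
    rw [Finset.mem_range] at hx hy hz
    by_cases h1 : z ≤ y ∧ y ≤ x
    · rw [hv, h_ex (by omega) (by omega) (by omega) h1, ← hv]
      by_cases ht : x = K ∧ y = K ∧ z = K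
      · obtain ⟨rfl, rfl, rfl⟩ := ht
        simp
      · rw [if_neg ht]
        have e : (if x = K then (if y = K then (if z = K then u K K K else 0) else 0) else 0) =
            0 := by
          split_ifs with a1 a2 a3
          · exact absurd ⟨a1, a2, a3⟩ ht
          · rfl
          · rfl
          · rfl
        rw [e]
        split_ifs <;> ring
    · have e : u x y z = 0 := by
        rw [hu]; exact if_neg h1
      rw [e]
      have e' : (if x = K then (if y = K then (if z = K then u K K K else 0) else 0) else 0) =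
          0 := by
        split_ifs with a1 a2 a3
        · exact absurd ⟨by omega, by omega⟩ h1
        · rfl
        · rfl
        · rfl
      rw [e']
      split_ifs <;> simp
  have s1 : ∑ x ∈ range (K + 1), ∑ y ∈ range (K + 1), ∑ z ∈ range (K + 1),
      (if 0 < x then u (x - 1) y z * v x y z else 0) =
      ∑ x ∈ range (K + 1), ∑ y ∈ range (K + 1), ∑ z ∈ range (K + 1),
        (if x < K then u x y z * v (x + 1) y z else 0) := by
    rw [Finset.sum_comm]
    conv_rhs => rw [Finset.sum_comm]
    refine Finset.sum_congr rfl fun y _ => ?_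
    rw [Finset.sum_comm]
    conv_rhs => rw [Finset.sum_comm]
    refine Finset.sum_congr rfl fun z _ => ?_
    exact shift K fun a b => u a y z * v b y z
  have s2 : ∑ x ∈ range (K + 1), ∑ y ∈ range (K + 1), ∑ z ∈ range (K + 1),
      (if 0 < y then u x (y - 1) z * v x y z else 0) =
      ∑ x ∈ range (K + 1), ∑ y ∈ range (K + 1), ∑ z ∈ range (K + 1),
        (if y < K then u x y z * v x (y + 1) z else 0) := by
    refine Finset.sum_congr rfl fun x _ => ?_
    rw [Finset.sum_comm]
    conv_rhs => rw [Finset.sum_comm]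
    refine Finset.sum_congr rfl fun z _ => ?_
    exact shift K fun a b => u x a z * v x b z
  have s3 : ∑ x ∈ range (K + 1), ∑ y ∈ range (K + 1), ∑ z ∈ range (K + 1),
      (if 0 < z then u x y (z - 1) * v x y z else 0) =
      ∑ x ∈ range (K + 1), ∑ y ∈ range (K + 1), ∑ z ∈ range (K + 1),
        (if z < K then u x y z * v x y (z + 1) else 0) := by
    refine Finset.sum_congr rfl fun x _ => Finset.sum_congr rfl fun y _ => ?_
    exact shift K fun a b => u x y a * v x y b
  have s4 : ∑ x ∈ range (K + 1), ∑ y ∈ range (K + 1), ∑ z ∈ range (K + 1),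
        (if x = K then (if y = K then (if z = K then u K K K else 0) else 0) else 0) =
      u K K K := by
    rw [Finset.sum_eq_single K, Finset.sum_eq_single K, Finset.sum_eq_single K]
    · simp
    · intro z _ hz; simp [hz]
    · intro hz; simp at hz
    · intro y _ hy; simp [hy]
    · intro hz; simp at hz
    · intro x _ hx; simp [hx]
    · intro hz; simp at hz
  have e : u K K K = G s K K K := if_pos ⟨le_rfl, le_rfl⟩
  rw [s1, s2, s3] at hL
  rw [hL, s4, e] at hR
  omega


theorem dual_yz (K b : ℕ) (hb : b ≤ K) (s : ℕ → ℕ) :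
    G (fun x y z => if y = b ∧ z = b then s x else 0) K K K =
      ∑ x ∈ range (K + 1), (if b ≤ x then s x * f (K - b) (K - b) (K - x) else 0) := by
  rw [dual]
  refine Finset.sum_congr rfl fun x _ => ?_
  rw [Finset.sum_eq_single b, Finset.sum_eq_single b]
  · unfold ex h
    by_cases h1 : b ≤ x
    · simp [h1]
    · simp [h1]
  · intro z _ hz
    unfold ex
    simp [hz]
  · intro hz
    exact absurd (Finset.mem_range.2 (by omega)) hz
  · intro y _ hy
    refine Finset.sum_eq_zero fun z _ => ?_
    unfold ex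
    simp [hy]
  · intro hz
    exact absurd (Finset.mem_range.2 (by omega)) hz

theorem dual_xy (K b : ℕ) (hb : b ≤ K) (s : ℕ → ℕ) :
    G (fun x y z => if x = b ∧ y = b then s z else 0) K K K =
      ∑ z ∈ range (K + 1), (if z ≤ b then s z * f (K - z) (K - b) (K - b) else 0) := by
  rw [dual, Finset.sum_eq_single b, Finset.sum_eq_single b]
  · refine Finset.sum_congr rfl fun z _ => ?_
    unfold ex h
    by_cases h1 : z ≤ b
    · simp [h1]
    · simp [h1]
  · intro y _ hy
    refine Finset.sum_eq_zero fun z _ => ?_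
    unfold ex
    simp [hy]
  · intro hz
    exact absurd (Finset.mem_range.2 (by omega)) hz
  · intro x _ hx
    refine Finset.sum_eq_zero fun y _ => Finset.sum_eq_zero fun z _ => ?_
    unfold ex
    simp [hx]
  · intro hz
    exact absurd (Finset.mem_range.2 (by omega)) hz

/-- marks at the level `b` of the last two rows -/
def V (b : ℕ) : ℕ → ℕ → ℕ → ℕ := G fun x y z => if y = b ∧ z = b then f x y z else 0

theorem V_sum (K b : ℕ) (hb : b ≤ K) : V b K K K =
    ∑ x ∈ range (K + 1), (if b ≤ x then f x b b * f (K - b) (K - b) (K - x) else 0) := by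
  rw [← dual_yz K b hb fun x => f x b b]
  unfold V
  congr 1
  funext x y z
  by_cases h1 : y = b ∧ z = b
  · rw [if_pos h1, if_pos h1, h1.1, h1.2]
  · rw [if_neg h1, if_neg h1]

theorem U_sum (K b : ℕ) (hb : b ≤ K) : U b K K K =
    ∑ z ∈ range (K + 1), (if z ≤ b then f b b z * f (K - z) (K - b) (K - b) else 0) := by
  rw [← dual_xy K b hb fun z => f b b z]
  unfold U
  congr 1
  funext x y z
  by_cases h1 : x = b ∧ y = b
  · rw [if_pos h1, if_pos h1, h1.1, h1.2]
  · rw [if_neg h1, if_neg h1]

theorem V_eq_U (K b : ℕ) (hb : b ≤ K) : V b K K K = U (K - b) K K K := by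
  rw [V_sum K b hb, U_sum K (K - b) (by omega)]
  rw [← Finset.sum_flip]
  refine Finset.sum_congr rfl fun x hx => ?_
  rw [Finset.mem_range] at hx
  by_cases h1 : b ≤ K - x
  · rw [if_pos h1, if_pos (by omega), show K - (K - x) = x by omega,
      show K - (K - b) = b by omega, mul_comm]
  · rw [if_neg h1, if_neg (by omega)]

theorem V_le (K b : ℕ) (hb : b ≤ K) (hb1 : 1 ≤ b) : V b K K K ≤ f K K K := by
  rw [V_eq_U K b hb]
  exact key _ _ _ _ le_rfl le_rfl (by omega)

theorem W_sum (K b c : ℕ) (hc : c ≤ K) : W b c K K K =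
    ∑ x ∈ range (K + 1), (if c ≤ x then U b x c c * f (K - c) (K - c) (K - x) else 0) := by
  rw [← dual_yz K c hc fun x => U b x c c]
  unfold W
  congr 1
  funext x y z
  by_cases h1 : y = c ∧ z = c
  · rw [if_pos h1, if_pos h1, h1.1, h1.2]
  · rw [if_neg h1, if_neg h1]

theorem U_concat (j c : ℕ) : ∀ z, z ≤ c →
    f j j j * U c c c z ≤ U (j + c) (j + c) (j + c) (j + z) := by
  intro z
  induction z with
  | zero =>
    intro _
    rw [U_bb c 0, if_neg (lt_irrefl 0), add_zero, U_bb (j + c) (j + 0)]
    exact (f_concat j c c 0 (Nat.zero_le _) le_rfl).trans (Nat.le_add_right _ _)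
  | succ z ih =>
    intro hz
    rw [U_bb c (z + 1), if_pos (Nat.succ_pos z), U_bb (j + c) (j + (z + 1)), if_pos (by omega),
      mul_add, Nat.add_sub_cancel, show j + (z + 1) - 1 = j + z by omega]
    exact Nat.add_le_add (f_concat j c c (z + 1) hz le_rfl) (ih (by omega))

/-- **main inequality** -/
theorem W_le {K b c : ℕ} (hbc : b ≤ c) (hc : c ≤ K) (hc1 : 1 ≤ c) : W b c K K K ≤ U K K K K := by
  have hf : f K K K ≤ U K K K K := by
    rw [U_bb]
    exact Nat.le_add_right _ _
  rcases Nat.lt_or_ge b c with h1 | h1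
  · -- `b < c`
    refine le_trans ?_ hf
    refine le_trans ?_ (V_le K c hc hc1)
    unfold W V
    refine G_mono (fun x y z h2 h3 => ?_) K K K le_rfl le_rfl
    split_ifs with h4
    · exact key b x y z h2 h3 (by omega)
    · exact le_rfl
  · obtain rfl : b = c := le_antisymm hbc h1
    obtain ⟨j, rfl⟩ : ∃ j, K = j + b := ⟨K - b, by omega⟩
    rw [W_sum _ _ _ hc]
    -- the term `x = b` is separated
    have h2 : ∀ x ∈ range (j + b + 1),
        (if b ≤ x then U b x b b * f (j + b - b) (j + b - b) (j + b - x) else 0) ≤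
        (if b ≤ x then f x b b * f (j + b - b) (j + b - b) (j + b - x) else 0) +
        (if x = b then f j j j * U b b b (b - 1) else 0) := by
      intro x _
      by_cases h3 : b ≤ x
      · rw [if_pos h3, if_pos h3]
        rcases Nat.eq_or_lt_of_le h3 with h4 | h4
        · subst h4
          rw [if_pos rfl, Nat.add_sub_cancel, U_bb b b, if_pos (by omega)]
          ring_nf
          exact le_rfl
        · rw [if_neg (by omega), add_zero]
          exact Nat.mul_le_mul_right _ (key b x b b le_rfl h3 h4)
      · rw [if_neg h3, if_neg h3, if_neg (by omega)]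
    refine (Finset.sum_le_sum h2).trans ?_
    rw [Finset.sum_add_distrib, ← V_sum _ _ hc, Finset.sum_ite_eq' (range (j + b + 1)) b,
      if_pos (Finset.mem_range.2 (by omega)), U_bb (j + b) (j + b), if_pos (by omega)]
    refine Nat.add_le_add (V_le _ _ hc hc1) ?_
    rw [show j + b - 1 = j + (b - 1) by omega]
    exact U_concat j b (b - 1) (by omega)

end Pool.Agent.Lib_helper5.TC
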