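import Mathlib

/-!
# Counting linear extensions by removing the last element
-/

set_option autoImplicit false

namespace Pool.Agent.Lib_helper5.TC

open Finset

variable {α : Type*} [DecidableEq α] [Fintype α]

/-- number of orders of the set `S` of size `k` compatible with `r` -/
def cnt (r : α → α → Prop) [DecidableRel r] : ℕ → Finset α → ℕ
  | 0, S => if S = ∅ then 1 else 0
  | k + 1, S => ∑ a ∈ S.filter (fun a => ∀ b ∈ S, ¬ r a b), cnt r k (S.erase a)

/-- orders of `S` as injective maps from `Fin k` -/
def ords (r : α → α → Prop) [DecidableRel r] (k : ℕ) (S : Finset α) : Finset (Fin k → α) :=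
  univ.filter fun σ => Function.Injective σ ∧ univ.image σ = S ∧ ∀ i j, i < j → ¬ r (σ j) (σ i)

theorem mem_ords {r : α → α → Prop} [DecidableRel r] {k : ℕ} {S : Finset α} {σ : Fin k → α} :
    σ ∈ ords r k S ↔ Function.Injective σ ∧ univ.image σ = S ∧
      ∀ i j, i < j → ¬ r (σ j) (σ i) := by
  unfold ords
  rw [mem_filter]
  exact ⟨fun h => h.2, fun h => ⟨mem_univ _, h⟩⟩

theorem card_ords (r : α → α → Prop) [DecidableRel r] (hr : ∀ a, ¬ r a a) :
    ∀ (k : ℕ) (S : Finset α), (ords r k S).card = cnt r k S := by
  intro k
  induction k with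
  | zero =>
    intro S
    unfold cnt
    split_ifs with h
    · rw [Finset.card_eq_one]
      refine ⟨Fin.elim0, ?_⟩
      ext σ
      rw [mem_ords, mem_singleton]
      constructor
      · intro _
        funext i
        exact i.elim0
      · intro _
        refine ⟨fun i => i.elim0, ?_, fun i => i.elim0⟩
        rw [h]
        rfl
    · rw [Finset.card_eq_zero, Finset.eq_empty_iff_forall_notMem]
      intro σ hσ
      rw [mem_ords] at hσ
      apply h
      rw [← hσ.2.1]
      rfl
  | succ k ih =>
    intro S
    show _ = ∑ a ∈ S.filter (fun a => ∀ b ∈ S, ¬ r a b), cnt r k (S.erase a)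
    rw [Finset.card_eq_sum_card_fiberwise (f := fun σ : Fin (k + 1) → α => σ (Fin.last k))
      (t := S.filter (fun a => ∀ b ∈ S, ¬ r a b))]
    · refine Finset.sum_congr rfl fun a ha => ?_
      rw [← ih (S.erase a)]
      rw [mem_filter] at ha
      refine Finset.card_bij' (fun σ _ => Fin.init σ) (fun τ _ => Fin.snoc τ a) ?_ ?_ ?_ ?_
      · intro σ hσ
        rw [mem_filter, mem_ords] at hσ
        obtain ⟨⟨h1, h2, h3⟩, h4⟩ := hσ
        rw [mem_ords]
        refine ⟨fun i j hij => ?_, ?_, fun i j hij => ?_⟩
        · have := h1 hij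
          exact Fin.castSucc_injective _ this
        · ext x
          rw [mem_image, mem_erase, ← h2, mem_image]
          constructor
          · rintro ⟨i, _, rfl⟩
            refine ⟨fun h5 => ?_, ⟨i.castSucc, mem_univ _, rfl⟩⟩
            have h6 : σ i.castSucc = σ (Fin.last k) := by rw [h4]; exact h5
            exact absurd (h1 h6) (Fin.castSucc_lt_last i).ne
          · rintro ⟨h5, i, _, rfl⟩
            have h6 : i ≠ Fin.last k := fun h7 => h5 (by rw [h7]; exact h4)
            refine ⟨i.castPred h6, mem_univ _, ?_⟩
            show σ (Fin.castSucc (i.castPred h6)) = σ i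
            rw [Fin.castSucc_castPred]
        · exact h3 _ _ (Fin.castSucc_lt_castSucc_iff.2 hij)
      · intro τ hτ
        rw [mem_ords] at hτ
        obtain ⟨h1, h2, h3⟩ := hτ
        have ha' : ∀ i, τ i ≠ a := fun i h => by
          have : τ i ∈ S.erase a := by rw [← h2]; exact mem_image_of_mem _ (mem_univ _)
          exact (mem_erase.1 this).1 h
        have hS : ∀ i, τ i ∈ S := fun i => by
          have : τ i ∈ S.erase a := by rw [← h2]; exact mem_image_of_mem _ (mem_univ _)
          exact (mem_erase.1 this).2
        rw [mem_filter, mem_ords]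
        refine ⟨⟨?_, ?_, ?_⟩, Fin.snoc_last _ _⟩
        · intro i j
          refine Fin.lastCases ?_ (fun i => ?_) i
          · refine Fin.lastCases (fun _ => rfl) (fun j => ?_) j
            rw [Fin.snoc_last, Fin.snoc_castSucc]
            exact fun h => absurd h.symm (ha' j)
          · refine Fin.lastCases ?_ (fun j => ?_) j
            · rw [Fin.snoc_last, Fin.snoc_castSucc]
              exact fun h => absurd h (ha' i)
            · rw [Fin.snoc_castSucc, Fin.snoc_castSucc]
              exact fun h => congrArg _ (h1 h)
        · ext x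
          rw [mem_image]
          constructor
          · rintro ⟨i, _, rfl⟩
            refine Fin.lastCases ?_ (fun i => ?_) i
            · rw [Fin.snoc_last]; exact ha.1
            · rw [Fin.snoc_castSucc]; exact hS i
          · intro hx
            by_cases hxa : x = a
            · exact ⟨Fin.last k, mem_univ _, by rw [Fin.snoc_last, hxa]⟩
            · have : x ∈ S.erase a := mem_erase.2 ⟨hxa, hx⟩
              rw [← h2, mem_image] at this
              obtain ⟨i, _, rfl⟩ := this
              exact ⟨i.castSucc, mem_univ _, by rw [Fin.snoc_castSucc]⟩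
        · intro i j
          refine Fin.lastCases ?_ (fun j => ?_) j
          · intro _
            rw [Fin.snoc_last]
            refine Fin.lastCases ?_ (fun i => ?_) i
            · rw [Fin.snoc_last]
              exact hr a
            · rw [Fin.snoc_castSucc]
              exact ha.2 _ (hS i)
          · refine Fin.lastCases ?_ (fun i => ?_) i
            · intro h
              exact absurd h (Fin.castSucc_lt_last j).not_gt
            · intro h
              rw [Fin.snoc_castSucc, Fin.snoc_castSucc]
              exact h3 _ _ (Fin.castSucc_lt_castSucc_iff.1 h)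
      · intro σ hσ
        rw [mem_filter] at hσ
        show Fin.snoc (Fin.init σ) a = σ
        rw [← hσ.2]
        exact Fin.snoc_init_self σ
      · intro τ _
        exact Fin.init_snoc _ _
    · intro σ hσ
      have hσ' : σ ∈ ords r (k + 1) S := hσ
      rw [mem_ords] at hσ'
      obtain ⟨h1, h2, h3⟩ := hσ'
      show σ (Fin.last k) ∈ _
      rw [mem_coe, mem_filter]
      refine ⟨by rw [← h2]; exact mem_image_of_mem _ (mem_univ _), fun b hb => ?_⟩
      rw [← h2, mem_image] at hb
      obtain ⟨i, _, rfl⟩ := hb
      rcases (Fin.le_last i).lt_or_eq with h4 | h4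
      · exact h3 _ _ h4
      · rw [h4]
        exact hr _

/-- bijections onto `Fin N` compatible with `r` -/
theorem card_le (r : α → α → Prop) [DecidableRel r] (hr : ∀ a, ¬ r a a) {N : ℕ} :
    Nat.card {T : α ≃ Fin N // ∀ a b, r a b → T a < T b} = cnt r N (univ : Finset α) := by
  rw [← card_ords r hr, ← Fintype.card_coe, ← Nat.card_eq_fintype_card]
  have hbij : ∀ σ : ords r N (univ : Finset α), Function.Bijective σ.1 := by
    intro σ
    refine ⟨(mem_ords.1 σ.2).1, fun x => ?_⟩
    have h1 : x ∈ univ.image σ.1 := by
      rw [(mem_ords.1 σ.2).2.1]; exact mem_univ x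
    rw [mem_image] at h1
    obtain ⟨i, _, hi⟩ := h1
    exact ⟨i, hi⟩
  refine Nat.card_congr ?_
  refine
    { toFun := fun T => ⟨T.1.symm, ?_⟩
      invFun := fun σ => ⟨(Equiv.ofBijective σ.1 (hbij σ)).symm, ?_⟩
      left_inv := ?_
      right_inv := ?_ }
  · rw [mem_ords]
    refine ⟨T.1.symm.injective, ?_, fun i j hij hr' => ?_⟩
    · ext x
      simp only [mem_image, mem_univ, true_and, iff_true]
      exact ⟨T.1 x, T.1.symm_apply_apply x⟩
    · have := T.2 _ _ hr'
      rw [T.1.apply_symm_apply, T.1.apply_symm_apply] at this
      exact absurd this hij.not_gt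
  · intro a b hab
    have h3 : ∀ c, σ.1 ((Equiv.ofBijective σ.1 (hbij σ)).symm c) = c := fun c =>
      Equiv.ofBijective_apply_symm_apply _ _ c
    by_contra hn
    rcases (not_lt.1 hn).lt_or_eq with h1 | h1
    · have h2 := (mem_ords.1 σ.2).2.2 _ _ h1
      rw [h3, h3] at h2
      exact h2 hab
    · have h4 : b = a := (Equiv.ofBijective σ.1 (hbij σ)).symm.injective h1
      rw [h4] at hab
      exact hr a hab
  · intro T
    apply Subtype.ext
    apply Equiv.ext
    intro x
    show (Equiv.ofBijective (T.1.symm : Fin N → α) _).symm x = T.1 x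
    rw [Equiv.symm_apply_eq]
    exact (T.1.symm_apply_apply x).symm
  · intro σ
    apply Subtype.ext
    rfl

end Pool.Agent.Lib_helper5.TC
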