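import Pool.Agent.Lib_helper5.TC.Phase
import Pool.Agent.Lib_helper5.TC.Defs

/-!
# Paths in boxes with few rows
-/

set_option autoImplicit false

namespace Pool.Agent.Lib_helper5.TC

open Finset

theorem coords {m n : ℕ} {p : Fin (m + n + 1) → Cell m n} (hp : IsPath p) (k : Fin (m + n + 1)) :
    (p k).1.val + (p k).2.val = k.val := by
  obtain ⟨h0, _, hs⟩ := hp
  induction k using Fin.induction with
  | zero => rw [h0]; rfl
  | succ k ih =>
    have := hs k
    unfold Step at this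
    rw [Fin.val_succ]
    rw [Fin.val_castSucc] at ih
    omega

theorem cell_eq {m n : ℕ} {a : Cell m n} {i j : ℕ} {hi : i < m + 1} {hj : j < n + 1}
    (h1 : a.1.val = i) (h2 : a.2.val = j) : a = (⟨i, hi⟩, ⟨j, hj⟩) :=
  Prod.ext (Fin.ext h1) (Fin.ext h2)

/-- the values of a step function -/
theorem levels (R : ℕ → ℕ) (M : ℕ) (h0 : R 0 = 0) (hM : R M = 2)
    (hs : ∀ k, k < M → R (k + 1) = R k ∨ R (k + 1) = R k + 1) :
    ∃ k₁ k₂, k₁ < k₂ ∧ k₂ < M ∧ ∀ k, k ≤ M → (R k = 0 ↔ k ≤ k₁) ∧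
      (R k = 1 ↔ k₁ < k ∧ k ≤ k₂) ∧ (R k = 2 ↔ k₂ < k) := by
  have hmono : ∀ d k, k + d ≤ M → R k ≤ R (k + d) := by
    intro d
    induction d with
    | zero => intro k _; exact le_rfl
    | succ d ih =>
      intro k hk
      have h1 := ih k (by omega)
      have h2 := hs (k + d) (by omega)
      rw [show k + (d + 1) = k + d + 1 by ring]
      omega
  have hmono' : ∀ k l, k ≤ l → l ≤ M → R k ≤ R l := by
    intro k l h1 h2
    obtain ⟨d, rfl⟩ := Nat.exists_eq_add_of_le h1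
    exact hmono d k h2
  classical
  set k₁ := Nat.findGreatest (fun k => R k = 0) M with hk₁
  set k₂ := Nat.findGreatest (fun k => R k ≤ 1) M with hk₂
  have e1 : R k₁ = 0 := Nat.findGreatest_spec (P := fun k => R k = 0) (Nat.zero_le M) h0
  have e2 : R k₂ ≤ 1 := Nat.findGreatest_spec (P := fun k => R k ≤ 1) (Nat.zero_le M)
    (by rw [h0]; exact Nat.zero_le 1)
  have b1 : k₁ ≤ M := Nat.findGreatest_le M
  have b2 : k₂ ≤ M := Nat.findGreatest_le M
  have g1 : ∀ k, k₁ < k → k ≤ M → R k ≠ 0 := fun k h1 h2 h3 =>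
    Nat.findGreatest_is_greatest h1 h2 h3
  have g2 : ∀ k, k₂ < k → k ≤ M → ¬ R k ≤ 1 := fun k h1 h2 h3 =>
    Nat.findGreatest_is_greatest h1 h2 h3
  have c1 : k₁ < M := by
    rcases b1.lt_or_eq with h | h
    · exact h
    · rw [h, hM] at e1; omega
  have c2 : k₂ < M := by
    rcases b2.lt_or_eq with h | h
    · exact h
    · rw [h, hM] at e2; omega
  have e3 : R (k₁ + 1) = 1 := by
    have h1 := g1 (k₁ + 1) (by omega) c1
    have h2 := hs k₁ c1
    omega
  have e4 : R (k₂ + 1) = 2 := by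
    have h1 := g2 (k₂ + 1) (by omega) c2
    have h2 := hs k₂ c2
    omega
  have c3 : k₁ < k₂ := by
    by_contra h
    have h1 := hmono' (k₂ + 1) (k₁ + 1) (by omega) c1
    omega
  refine ⟨k₁, k₂, c3, c2, fun k hk => ?_⟩
  rcases Nat.lt_or_ge k₁ k with h | h
  · rcases Nat.lt_or_ge k₂ k with h' | h'
    · have h1 := hmono' (k₂ + 1) k h' hk
      have h2 := hmono' k M hk le_rfl
      omega
    · have h1 := g1 k h hk
      have h2 := hmono' k k₂ h' b2
      omega
  · have h1 := hmono' k k₁ h b1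
    omega

/-- the path in a box with three rows -/
theorem path3 {n : ℕ} {p : Fin (2 + n + 1) → Cell 2 n} (hp : IsPath p) :
    ∃ c₁ c₂, c₁ ≤ c₂ ∧ c₂ ≤ n ∧ ∀ k, ((p k).1.val = 0 ↔ k.val ≤ c₁) ∧
      ((p k).1.val = 1 ↔ c₁ < k.val ∧ k.val ≤ c₂ + 1) ∧ ((p k).1.val = 2 ↔ c₂ + 1 < k.val) := by
  set R : ℕ → ℕ := fun k => if h : k < 2 + n + 1 then (p ⟨k, h⟩).1.val else 2 with hR
  have hRk : ∀ k : Fin (2 + n + 1), R k.val = (p k).1.val := fun k => by
    rw [hR]
    show (if h : k.val < 2 + n + 1 then (p ⟨k.val, h⟩).1.val else 2) = _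
    rw [dif_pos k.isLt]
  obtain ⟨k₁, k₂, h1, h2, h3⟩ := levels R (2 + n) (by
      have := hRk 0
      rw [hp.1] at this
      exact this) (by
      have := hRk (Fin.last (2 + n))
      rw [hp.2.1] at this
      exact this) (fun k hk => by
      have h4 := hRk (Fin.castSucc ⟨k, hk⟩)
      have h5 := hRk (Fin.succ ⟨k, hk⟩)
      have h6 := hp.2.2 ⟨k, hk⟩
      unfold Step at h6
      have h4' : R k = (p (Fin.castSucc ⟨k, hk⟩)).1.val := h4
      have h5' : R (k + 1) = (p (Fin.succ ⟨k, hk⟩)).1.val := h5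
      omega)
  refine ⟨k₁, k₂ - 1, by omega, by omega, fun k => ?_⟩
  have h4 := h3 k.val (by have := k.isLt; omega)
  rw [hRk] at h4
  refine ⟨h4.1, ?_, ?_⟩
  · rw [h4.2.1]; omega
  · rw [h4.2.2]; omega

end Pool.Agent.Lib_helper5.TC
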