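import Pool.Agent.Lib_helper5.TC.Rows

/-!
# The three phases of the star
-/

set_option autoImplicit false

namespace Pool.Agent.Lib_helper5.TC

open Finset

variable {n c₁ c₂ : ℕ}

theorem g_zero : g n c₁ c₂ 0 0 0 = 1 := by
  unfold g
  show (if A n 0 0 0 = ∅ then 1 else 0) = 1
  rw [if_pos]
  rw [Finset.eq_empty_iff_forall_notMem]
  intro a ha
  rw [mem_A] at ha
  omega

theorem g0 (hc : c₁ ≤ c₂) : ∀ x y z, z ≤ y → y ≤ x → x ≤ n + 1 → x ≤ c₁ →
    g n c₁ c₂ x y z = f x y z := by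
  refine shape_ind fun x y z h1 h2 h3 h4 h5 hn hx => ?_
  rcases Nat.eq_zero_or_pos (x + y + z) with h0 | h0
  · obtain ⟨rfl, rfl, rfl⟩ : x = 0 ∧ y = 0 ∧ z = 0 := by omega
    rw [g_zero, f_zero]
  · rw [g_eq hn (by omega) (by omega) h0, f_eq h0]
    congr 1
    · congr 1
      · by_cases h6 : y < x
        · rw [if_pos (by omega), if_pos h6]
          exact h3 h6 (by omega) (by omega)
        · rw [if_neg (by omega), if_neg h6]
      · by_cases h6 : z < y
        · rw [if_pos (by omega), if_pos h6]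
          exact h4 h6 hn hx
        · rw [if_neg (by omega), if_neg h6]
    · by_cases h6 : 0 < z
      · rw [if_pos (by omega), if_pos h6]
        exact h5 h6 hn hx
      · rw [if_neg (by omega), if_neg h6]

theorem g1 (hc : c₁ ≤ c₂) : ∀ N x y z, x + y + z = N → z ≤ y → y < x → y ≤ c₂ → c₁ ≤ y →
    x ≤ n + 1 → g n c₁ c₂ x y z = U c₁ (x - 1) y z := by
  intro N
  induction N using Nat.strong_induction_on with
  | _ N ih =>
    intro x y z hN h1 h2 h3 h4 h5
    rw [g_eq h5 (by omega) (by omega) (by omega), U_eq]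
    have t2 : (if 0 < y ∧ z < y ∧ ¬ (y = c₁ ∧ c₁ < x) ∧ ¬ (c₂ + 1 < y ∧ y < z + 2) then
        g n c₁ c₂ x (y - 1) z else 0) = (if z < y then U c₁ (x - 1) (y - 1) z else 0) := by
      by_cases h6 : z < y
      · rw [if_pos h6]
        by_cases h7 : y = c₁
        · rw [if_neg (by omega), U_zero_of_lt _ _ _ (by omega) (by omega) (by omega)]
        · rw [if_pos (by omega)]
          exact ih (x + (y - 1) + z) (by omega) _ _ _ rfl (by omega) (by omega) (by omega)
            (by omega) h5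
      · rw [if_neg (by omega), if_neg h6]
    have t3 : (if 0 < z ∧ ¬ (z = c₂ ∧ c₂ < y) then g n c₁ c₂ x y (z - 1) else 0) =
        (if 0 < z then U c₁ (x - 1) y (z - 1) else 0) := by
      by_cases h6 : 0 < z
      · rw [if_pos (by omega), if_pos h6]
        exact ih (x + y + (z - 1)) (by omega) _ _ _ rfl (by omega) h2 h3 h4 h5
      · rw [if_neg (by omega), if_neg h6]
    have t1 : (if 0 < x ∧ y < x ∧ ¬ (c₁ + 1 < x ∧ x ≤ c₂ + 1 ∧ x < y + 2) then
        g n c₁ c₂ (x - 1) y z else 0) = (if x - 1 = c₁ ∧ y = c₁ then f (x - 1) y z else 0) +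
        (if y < x - 1 then U c₁ (x - 1 - 1) y z else 0) := by
      by_cases h6 : x = c₁ + 1
      · rw [if_pos (show 0 < x ∧ y < x ∧ ¬ (c₁ + 1 < x ∧ x ≤ c₂ + 1 ∧ x < y + 2) by omega),
          if_pos (show x - 1 = c₁ ∧ y = c₁ by omega), if_neg (show ¬ y < x - 1 by omega), add_zero]
        exact g0 hc _ _ _ h1 (by omega) (by omega) (by omega)
      · rw [if_neg (show ¬ (x - 1 = c₁ ∧ y = c₁) by omega), zero_add]
        by_cases h7 : y < x - 1
        · rw [if_pos (show 0 < x ∧ y < x ∧ ¬ (c₁ + 1 < x ∧ x ≤ c₂ + 1 ∧ x < y + 2) by omega),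
            if_pos h7]
          exact ih (x - 1 + y + z) (by omega) _ _ _ rfl h1 h7 h3 h4 (by omega)
        · rw [if_neg (show ¬ (0 < x ∧ y < x ∧ ¬ (c₁ + 1 < x ∧ x ≤ c₂ + 1 ∧ x < y + 2)) by omega),
            if_neg h7]
    rw [t1, t2, t3]
    ring

theorem W_eq (b c x y z : ℕ) :
    W b c x y z = (if y = c ∧ z = c then U b x y z else 0) + ((if y < x then W b c (x - 1) y z
      else 0) + (if z < y then W b c x (y - 1) z else 0) +
      (if 0 < z then W b c x y (z - 1) else 0)) := by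
  unfold W
  rw [G_eq]

theorem W_zero {b c : ℕ} : ∀ x y z, z ≤ y → y ≤ x → z < c → W b c x y z = 0 := by
  refine shape_ind fun x y z h1 h2 h3 h4 h5 h => ?_
  rw [W_eq, if_neg (by omega)]
  have e1 : (if y < x then W b c (x - 1) y z else 0) = 0 := by
    split_ifs with h6
    · exact h3 h6 h
    · rfl
  have e2 : (if z < y then W b c x (y - 1) z else 0) = 0 := by
    split_ifs with h6
    · exact h4 h6 h
    · rfl
  have e3 : (if 0 < z then W b c x y (z - 1) else 0) = 0 := by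
    split_ifs with h6
    · exact h5 h6 (by omega)
    · rfl
  rw [e1, e2, e3]

theorem g2 (hc : c₁ ≤ c₂) : ∀ N x y z, x + y + z = N → c₂ ≤ z → z < y → y ≤ x → x ≤ n + 1 →
    g n c₁ c₂ x y z = W c₁ c₂ (x - 1) (y - 1) z := by
  intro N
  induction N using Nat.strong_induction_on with
  | _ N ih =>
    intro x y z hN h1 h2 h3 h4
    rw [g_eq h4 (by omega) (by omega) (by omega), W_eq]
    have t1 : (if 0 < x ∧ y < x ∧ ¬ (c₁ + 1 < x ∧ x ≤ c₂ + 1 ∧ x < y + 2) then
        g n c₁ c₂ (x - 1) y z else 0) =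
        (if y - 1 < x - 1 then W c₁ c₂ (x - 1 - 1) (y - 1) z else 0) := by
      by_cases h6 : y < x
      · rw [if_pos (by omega), if_pos (by omega)]
        exact ih (x - 1 + y + z) (by omega) _ _ _ rfl h1 h2 (by omega) (by omega)
      · rw [if_neg (by omega), if_neg (by omega)]
    have t3 : (if 0 < z ∧ ¬ (z = c₂ ∧ c₂ < y) then g n c₁ c₂ x y (z - 1) else 0) =
        (if 0 < z then W c₁ c₂ (x - 1) (y - 1) (z - 1) else 0) := by
      by_cases h6 : 0 < z
      · rw [if_pos h6]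
        by_cases h7 : z = c₂
        · rw [if_neg (by omega), W_zero _ _ _ (by omega) (by omega) (by omega)]
        · rw [if_pos (by omega)]
          exact ih (x + y + (z - 1)) (by omega) _ _ _ rfl (by omega) (by omega) h3 h4
      · rw [if_neg (by omega), if_neg h6]
    have t2 : (if 0 < y ∧ z < y ∧ ¬ (y = c₁ ∧ c₁ < x) ∧ ¬ (c₂ + 1 < y ∧ y < z + 2) then
        g n c₁ c₂ x (y - 1) z else 0) =
        (if y - 1 = c₂ ∧ z = c₂ then U c₁ (x - 1) (y - 1) z else 0) +
        (if z < y - 1 then W c₁ c₂ (x - 1) (y - 1 - 1) z else 0) := by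
      by_cases h6 : y = c₂ + 1
      · rw [if_pos (show 0 < y ∧ z < y ∧ ¬ (y = c₁ ∧ c₁ < x) ∧ ¬ (c₂ + 1 < y ∧ y < z + 2) by
          omega), if_pos (show y - 1 = c₂ ∧ z = c₂ by omega),
          if_neg (show ¬ z < y - 1 by omega), add_zero]
        exact g1 hc _ _ _ _ rfl (by omega) (by omega) (by omega) (by omega) h4
      · rw [if_neg (show ¬ (y - 1 = c₂ ∧ z = c₂) by omega), zero_add]
        by_cases h7 : z < y - 1
        · rw [if_pos (show 0 < y ∧ z < y ∧ ¬ (y = c₁ ∧ c₁ < x) ∧ ¬ (c₂ + 1 < y ∧ y < z + 2) by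
            omega), if_pos h7]
          exact ih (x + (y - 1) + z) (by omega) _ _ _ rfl h1 h7 (by omega) h4
        · rw [if_neg (show ¬ (0 < y ∧ z < y ∧ ¬ (y = c₁ ∧ c₁ < x) ∧
            ¬ (c₂ + 1 < y ∧ y < z + 2)) by omega), if_neg h7]
    rw [t1, t2, t3]
    ring

theorem A_top : A n (n + 1) (n + 1) (n + 1) = univ := by
  ext a
  rw [mem_A]
  have h1 := a.1.isLt
  have h2 := a.2.isLt
  simp only [mem_univ, iff_true]
  omega

/-- the number of tableaux compatible with the path -/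
theorem g_top (hc : c₁ ≤ c₂) (hc₂ : c₂ ≤ n) :
    g n c₁ c₂ (n + 1) (n + 1) (n + 1) = W c₁ c₂ n n n := by
  rw [g_eq le_rfl le_rfl le_rfl (by omega), if_neg (by omega), if_neg (by omega),
    if_pos (by omega), zero_add, zero_add, Nat.add_sub_cancel,
    g2 hc _ _ _ _ rfl hc₂ (Nat.lt_succ_self n) le_rfl le_rfl]
  rfl

theorem cnt_top (hc : c₁ ≤ c₂) (hc₂ : c₂ ≤ n) (N : ℕ) (hN : N = (n + 1) + (n + 1) + (n + 1)) :
    cnt (rel (n := n) c₁ c₂) N univ = W c₁ c₂ n n n := by
  rw [← g_top hc hc₂, hN, ← A_top]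
  rfl

end Pool.Agent.Lib_helper5.TC
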