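import Pool.Agent.Lib_helper5.TC.Count
import Pool.Agent.Lib_helper5.TC.LE

/-!
# The poset of a path in a box with three rows
-/

set_option autoImplicit false

namespace Pool.Agent.Lib_helper5.TC

open Finset

variable {n : ℕ}

/-- the order relations of the path which leaves the first row in column `c₁` and the second in
column `c₂` -/
def rel (c₁ c₂ : ℕ) (a b : Fin 3 × Fin (n + 1)) : Prop :=
  (a.1.val = b.1.val ∧ a.2.val + 1 = b.2.val) ∨
  (a.1.val + 1 = b.1.val ∧ a.2.val = b.2.val) ∨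
  (a.1.val = 1 ∧ b.1.val = 0 ∧ a.2.val + 1 = c₁ ∧ b.2.val = c₁) ∨
  (a.1.val = 0 ∧ b.1.val = 1 ∧ c₁ < a.2.val ∧ a.2.val ≤ c₂ ∧ b.2.val + 1 = a.2.val) ∨
  (a.1.val = 2 ∧ b.1.val = 1 ∧ a.2.val + 1 = c₂ ∧ b.2.val = c₂) ∨
  (a.1.val = 1 ∧ b.1.val = 2 ∧ c₂ < a.2.val ∧ b.2.val + 1 = a.2.val)

instance (c₁ c₂ : ℕ) : DecidableRel (rel (n := n) c₁ c₂) := fun a b => by
  unfold rel; infer_instance

theorem rel_irrefl (c₁ c₂ : ℕ) (a : Fin 3 × Fin (n + 1)) : ¬ rel c₁ c₂ a a := by
  unfold rel; omega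

/-- the cells of the diagram `(x,y,z)` -/
def A (n x y z : ℕ) : Finset (Fin 3 × Fin (n + 1)) :=
  univ.filter fun a => (a.1.val = 0 ∧ a.2.val < x) ∨ (a.1.val = 1 ∧ a.2.val < y) ∨
    (a.1.val = 2 ∧ a.2.val < z)

theorem mem_A {x y z : ℕ} {a : Fin 3 × Fin (n + 1)} : a ∈ A n x y z ↔
    (a.1.val = 0 ∧ a.2.val < x) ∨ (a.1.val = 1 ∧ a.2.val < y) ∨ (a.1.val = 2 ∧ a.2.val < z) := by
  unfold A
  rw [mem_filter]
  exact ⟨fun h => h.2, fun h => ⟨mem_univ _, h⟩⟩

/-- the number of orders of the diagram -/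
def g (n c₁ c₂ x y z : ℕ) : ℕ := cnt (rel (n := n) c₁ c₂) (x + y + z) (A n x y z)

theorem row_sum {x : ℕ} (hx : x ≤ n + 1) (F : Fin (n + 1) → ℕ) (hF : ∀ j, F j ≠ 0 → j.val + 1 = x) :
    ∑ j, F j = if h : 0 < x then F ⟨x - 1, by omega⟩ else 0 := by
  split_ifs with h
  · refine Finset.sum_eq_single _ (fun j _ hj => ?_) (fun h => absurd (mem_univ _) h)
    by_contra h1
    have := hF j h1
    apply hj
    apply Fin.ext
    show j.val = x - 1
    omega
  · refine Finset.sum_eq_zero fun j _ => ?_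
    by_contra h1
    have := hF j h1
    omega

theorem g_eq {c₁ c₂ x y z : ℕ} (hx : x ≤ n + 1) (hy : y ≤ n + 1) (hz : z ≤ n + 1)
    (h0 : 0 < x + y + z) : g n c₁ c₂ x y z =
    (if 0 < x ∧ y < x ∧ ¬ (c₁ + 1 < x ∧ x ≤ c₂ + 1 ∧ x < y + 2) then g n c₁ c₂ (x - 1) y z else 0) +
    (if 0 < y ∧ z < y ∧ ¬ (y = c₁ ∧ c₁ < x) ∧ ¬ (c₂ + 1 < y ∧ y < z + 2) then
      g n c₁ c₂ x (y - 1) z else 0) +
    (if 0 < z ∧ ¬ (z = c₂ ∧ c₂ < y) then g n c₁ c₂ x y (z - 1) else 0) := by
  obtain ⟨k, hk⟩ : ∃ k, x + y + z = k + 1 := ⟨x + y + z - 1, by omega⟩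
  have e : g n c₁ c₂ x y z = ∑ a : Fin 3 × Fin (n + 1),
      (if a ∈ A n x y z ∧ ∀ b ∈ A n x y z, ¬ rel c₁ c₂ a b then
        cnt (rel c₁ c₂) k ((A n x y z).erase a) else 0) := by
    unfold g
    rw [hk]
    show ∑ a ∈ (A n x y z).filter (fun a => ∀ b ∈ A n x y z, ¬ rel c₁ c₂ a b),
      cnt (rel c₁ c₂) k ((A n x y z).erase a) = _
    rw [← Finset.sum_filter]
    refine Finset.sum_congr ?_ fun _ _ => rfl
    ext a
    rw [mem_filter, mem_filter]
    exact ⟨fun h => ⟨mem_univ _, h⟩, fun h => h.2⟩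
  rw [e, Fintype.sum_prod_type, Fin.sum_univ_three]
  have r0 : ∑ j : Fin (n + 1), (if ((0 : Fin 3), j) ∈ A n x y z ∧
      ∀ b ∈ A n x y z, ¬ rel c₁ c₂ ((0 : Fin 3), j) b then
        cnt (rel c₁ c₂) k ((A n x y z).erase ((0 : Fin 3), j)) else 0) =
      (if 0 < x ∧ y < x ∧ ¬ (c₁ + 1 < x ∧ x ≤ c₂ + 1 ∧ x < y + 2) then
        g n c₁ c₂ (x - 1) y z else 0) := by
    rw [row_sum hx]
    · by_cases h1 : 0 < x
      · rw [dif_pos h1]
        have hmem : ((0 : Fin 3), (⟨x - 1, by omega⟩ : Fin (n + 1))) ∈ A n x y z := by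
          rw [mem_A]; left; exact ⟨rfl, by show x - 1 < x; omega⟩
        have hmax : (∀ b ∈ A n x y z, ¬ rel c₁ c₂ ((0 : Fin 3), (⟨x - 1, by omega⟩ : Fin (n + 1))) b) ↔
            y < x ∧ ¬ (c₁ + 1 < x ∧ x ≤ c₂ + 1 ∧ x < y + 2) := by
          constructor
          · intro h
            refine ⟨?_, ?_⟩
            · by_contra h2
              refine h ((1 : Fin 3), ⟨x - 1, by omega⟩) ?_ ?_
              · rw [mem_A]; right; left; exact ⟨rfl, by show x - 1 < y; omega⟩
              · right; left; exact ⟨rfl, rfl⟩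
            · rintro ⟨h2, h3, h4⟩
              refine h ((1 : Fin 3), ⟨x - 2, by omega⟩) ?_ ?_
              · rw [mem_A]; right; left; exact ⟨rfl, by show x - 2 < y; omega⟩
              · right; right; right; left
                exact ⟨rfl, rfl, by show c₁ < x - 1; omega, by show x - 1 ≤ c₂; omega,
                  by show x - 2 + 1 = x - 1; omega⟩
          · rintro ⟨h2, h3⟩ ⟨b1, b2⟩ hb hr
            rw [mem_A] at hb
            unfold rel at hr
            simp only [Fin.val_zero] at hr hb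
            omega
        by_cases h2 : y < x ∧ ¬ (c₁ + 1 < x ∧ x ≤ c₂ + 1 ∧ x < y + 2)
        · rw [if_pos ⟨hmem, hmax.2 h2⟩, if_pos ⟨h1, h2⟩]
          unfold g
          have e1 : x - 1 + y + z = k := by omega
          rw [e1]
          congr 1
          ext ⟨b1, b2⟩
          rw [mem_erase, mem_A, mem_A, Ne, Prod.ext_iff, Fin.ext_iff, Fin.ext_iff]
          simp only [Fin.val_zero]
          omega
        · rw [if_neg (fun h => h2 (hmax.1 h.2)), if_neg (fun h => h2 h.2)]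
      · rw [dif_neg h1, if_neg (fun h => h1 h.1)]
    · intro j hj
      have h1 : ((0 : Fin 3), j) ∈ A n x y z ∧ ∀ b ∈ A n x y z, ¬ rel c₁ c₂ ((0 : Fin 3), j) b := by
        by_contra h2
        exact hj (if_neg h2)
      have h2 := h1.1
      rw [mem_A] at h2
      simp only [Fin.val_zero] at h2
      have h3 : j.val < x := by omega
      by_contra h4
      refine h1.2 ((0 : Fin 3), ⟨j.val + 1, by omega⟩) ?_ ?_
      · rw [mem_A]; left; exact ⟨rfl, by show j.val + 1 < x; omega⟩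
      · left; exact ⟨rfl, rfl⟩
  have r1 : ∑ j : Fin (n + 1), (if ((1 : Fin 3), j) ∈ A n x y z ∧
      ∀ b ∈ A n x y z, ¬ rel c₁ c₂ ((1 : Fin 3), j) b then
        cnt (rel c₁ c₂) k ((A n x y z).erase ((1 : Fin 3), j)) else 0) =
      (if 0 < y ∧ z < y ∧ ¬ (y = c₁ ∧ c₁ < x) ∧ ¬ (c₂ + 1 < y ∧ y < z + 2) then
        g n c₁ c₂ x (y - 1) z else 0) := by
    rw [row_sum hy]
    · by_cases h1 : 0 < y
      · rw [dif_pos h1]
        have hmem : ((1 : Fin 3), (⟨y - 1, by omega⟩ : Fin (n + 1))) ∈ A n x y z := by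
          rw [mem_A]; right; left; exact ⟨rfl, by show y - 1 < y; omega⟩
        have hmax : (∀ b ∈ A n x y z, ¬ rel c₁ c₂ ((1 : Fin 3), (⟨y - 1, by omega⟩ : Fin (n + 1))) b) ↔
            z < y ∧ ¬ (y = c₁ ∧ c₁ < x) ∧ ¬ (c₂ + 1 < y ∧ y < z + 2) := by
          constructor
          · intro h
            refine ⟨?_, ?_, ?_⟩
            · by_contra h2
              refine h ((2 : Fin 3), ⟨y - 1, by omega⟩) ?_ ?_
              · rw [mem_A]; right; right; exact ⟨rfl, by show y - 1 < z; omega⟩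
              · right; left; exact ⟨rfl, rfl⟩
            · rintro ⟨h2, h3⟩
              refine h ((0 : Fin 3), ⟨c₁, by omega⟩) ?_ ?_
              · rw [mem_A]; left; exact ⟨rfl, h3⟩
              · right; right; left
                exact ⟨rfl, rfl, by show y - 1 + 1 = c₁; omega, rfl⟩
            · rintro ⟨h2, h3⟩
              refine h ((2 : Fin 3), ⟨y - 2, by omega⟩) ?_ ?_
              · rw [mem_A]; right; right; exact ⟨rfl, by show y - 2 < z; omega⟩
              · right; right; right; right; right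
                exact ⟨rfl, rfl, by show c₂ < y - 1; omega, by show y - 2 + 1 = y - 1; omega⟩
          · rintro ⟨h2, h3, h4⟩ ⟨b1, b2⟩ hb hr
            rw [mem_A] at hb
            unfold rel at hr
            simp only [Fin.val_one] at hr hb
            omega
        by_cases h2 : z < y ∧ ¬ (y = c₁ ∧ c₁ < x) ∧ ¬ (c₂ + 1 < y ∧ y < z + 2)
        · rw [if_pos ⟨hmem, hmax.2 h2⟩, if_pos ⟨h1, h2⟩]
          unfold g
          have e1 : x + (y - 1) + z = k := by omega
          rw [e1]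
          congr 1
          ext ⟨b1, b2⟩
          rw [mem_erase, mem_A, mem_A, Ne, Prod.ext_iff, Fin.ext_iff, Fin.ext_iff]
          simp only [Fin.val_one]
          omega
        · rw [if_neg (fun h => h2 (hmax.1 h.2)), if_neg (fun h => h2 h.2)]
      · rw [dif_neg h1, if_neg (fun h => h1 h.1)]
    · intro j hj
      have h1 : ((1 : Fin 3), j) ∈ A n x y z ∧ ∀ b ∈ A n x y z, ¬ rel c₁ c₂ ((1 : Fin 3), j) b := by
        by_contra h2
        exact hj (if_neg h2)
      have h2 := h1.1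
      rw [mem_A] at h2
      simp only [Fin.val_one] at h2
      have h3 : j.val < y := by omega
      by_contra h4
      refine h1.2 ((1 : Fin 3), ⟨j.val + 1, by omega⟩) ?_ ?_
      · rw [mem_A]; right; left; exact ⟨rfl, by show j.val + 1 < y; omega⟩
      · left; exact ⟨rfl, rfl⟩
  have r2 : ∑ j : Fin (n + 1), (if ((2 : Fin 3), j) ∈ A n x y z ∧
      ∀ b ∈ A n x y z, ¬ rel c₁ c₂ ((2 : Fin 3), j) b then
        cnt (rel c₁ c₂) k ((A n x y z).erase ((2 : Fin 3), j)) else 0) =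
      (if 0 < z ∧ ¬ (z = c₂ ∧ c₂ < y) then g n c₁ c₂ x y (z - 1) else 0) := by
    rw [row_sum hz]
    · by_cases h1 : 0 < z
      · rw [dif_pos h1]
        have hmem : ((2 : Fin 3), (⟨z - 1, by omega⟩ : Fin (n + 1))) ∈ A n x y z := by
          rw [mem_A]; right; right; exact ⟨rfl, by show z - 1 < z; omega⟩
        have hmax : (∀ b ∈ A n x y z, ¬ rel c₁ c₂ ((2 : Fin 3), (⟨z - 1, by omega⟩ : Fin (n + 1))) b) ↔
            ¬ (z = c₂ ∧ c₂ < y) := by
          constructor
          · rintro h ⟨h2, h3⟩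
            refine h ((1 : Fin 3), ⟨c₂, by omega⟩) ?_ ?_
            · rw [mem_A]; right; left; exact ⟨rfl, h3⟩
            · right; right; right; right; left
              exact ⟨rfl, rfl, by show z - 1 + 1 = c₂; omega, rfl⟩
          · rintro h2 ⟨b1, b2⟩ hb hr
            rw [mem_A] at hb
            unfold rel at hr
            simp only [Fin.val_two] at hr hb
            omega
        by_cases h2 : ¬ (z = c₂ ∧ c₂ < y)
        · rw [if_pos ⟨hmem, hmax.2 h2⟩, if_pos ⟨h1, h2⟩]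
          unfold g
          have e1 : x + y + (z - 1) = k := by omega
          rw [e1]
          congr 1
          ext ⟨b1, b2⟩
          rw [mem_erase, mem_A, mem_A, Ne, Prod.ext_iff, Fin.ext_iff, Fin.ext_iff]
          simp only [Fin.val_two]
          omega
        · rw [if_neg (fun h => h2 (hmax.1 h.2)), if_neg (fun h => h2 h.2)]
      · rw [dif_neg h1, if_neg (fun h => h1 h.1)]
    · intro j hj
      have h1 : ((2 : Fin 3), j) ∈ A n x y z ∧ ∀ b ∈ A n x y z, ¬ rel c₁ c₂ ((2 : Fin 3), j) b := by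
        by_contra h2
        exact hj (if_neg h2)
      have h2 := h1.1
      rw [mem_A] at h2
      simp only [Fin.val_two] at h2
      have h3 : j.val < z := by omega
      by_contra h4
      refine h1.2 ((2 : Fin 3), ⟨j.val + 1, by omega⟩) ?_ ?_
      · rw [mem_A]; right; right; exact ⟨rfl, by show j.val + 1 < z; omega⟩
      · left; exact ⟨rfl, rfl⟩
  rw [r0, r1, r2]

end Pool.Agent.Lib_helper5.TC
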