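import Pool.Agent.Lib_helper5.TC.Link

/-!
# Boxes with three rows
-/

set_option autoImplicit false

namespace Pool.Agent.Lib_helper5.TC

open Finset

theorem use_prod {m n : ℕ} {p : Fin (m + n + 1) → Cell m n} (hp : IsPath p)
    {T : Cell m n ≃ Fin ((m + 1) * (n + 1))} (hT : Produces T p) (k : Fin (m + n)) {a b : Cell m n}
    (h1 : b.1.val = (p k.castSucc).1.val) (h2 : b.1.val + b.2.val = k.val)
    (h3 : a.1.val + a.2.val = k.val)
    (h4 : a.1.val + 1 = (p k.succ).1.val ∨ a.1.val = (p k.succ).1.val) (h5 : a.1.val ≠ b.1.val) :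
    T a < T b := by
  have c1 := coords hp k.castSucc
  have c2 := coords hp k.succ
  rw [Fin.val_castSucc] at c1
  rw [Fin.val_succ] at c2
  have hb : b = p k.castSucc := Prod.ext (Fin.ext h1) (Fin.ext (by omega))
  have hs : Step a (p k.succ) := by unfold Step; omega
  have h6 := (hT.2 k).2 a hs
  rw [← hb] at h6
  refine lt_of_le_of_ne h6 fun h7 => h5 ?_
  rw [T.injective h7]

/-- the rows of the path -/
def Rows {n : ℕ} (p : Fin (2 + n + 1) → Cell 2 n) (c₁ c₂ : ℕ) : Prop :=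
  ∀ k, ((p k).1.val = 0 ↔ k.val ≤ c₁) ∧
      ((p k).1.val = 1 ↔ c₁ < k.val ∧ k.val ≤ c₂ + 1) ∧ ((p k).1.val = 2 ↔ c₂ + 1 < k.val)

theorem Rows.zero {n : ℕ} {p : Fin (2 + n + 1) → Cell 2 n} {c₁ c₂ : ℕ} (h : Rows p c₁ c₂)
    {k : Fin (2 + n + 1)} (hk : k.val ≤ c₁) : (p k).1.val = 0 := (h k).1.2 hk

theorem Rows.one {n : ℕ} {p : Fin (2 + n + 1) → Cell 2 n} {c₁ c₂ : ℕ} (h : Rows p c₁ c₂)
    {k : Fin (2 + n + 1)} (hk : c₁ < k.val) (hk' : k.val ≤ c₂ + 1) : (p k).1.val = 1 :=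
  (h k).2.1.2 ⟨hk, hk'⟩

theorem Rows.two {n : ℕ} {p : Fin (2 + n + 1) → Cell 2 n} {c₁ c₂ : ℕ} (h : Rows p c₁ c₂)
    {k : Fin (2 + n + 1)} (hk : c₂ + 1 < k.val) : (p k).1.val = 2 :=
  (h k).2.2.2 hk

theorem back_of_rel {n : ℕ} {p : Fin (2 + n + 1) → Cell 2 n} (hp : IsPath p) {c₁ c₂ : ℕ}
    (hc : c₁ ≤ c₂) (h : Rows p c₁ c₂) (k : Fin (2 + n)) (u : Cell 2 n) (hu : Step u (p k.succ))
    (he : u.1.val ≠ (p k.castSucc).1.val) : rel c₁ c₂ u (p k.castSucc) := by
  have c1 := coords hp k.castSucc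
  have c2 := coords hp k.succ
  rw [Fin.val_castSucc] at c1
  rw [Fin.val_succ] at c2
  have v1 : k.castSucc.val = k.val := rfl
  have v2 : k.succ.val = k.val + 1 := rfl
  unfold Step at hu
  unfold rel
  rcases Nat.lt_or_ge k.val c₁ with h1 | h1
  · have e1 := h.zero (k := k.castSucc) (by omega)
    have e2 := h.zero (k := k.succ) (by omega)
    exfalso
    omega
  rcases h1.eq_or_lt with h1 | h1
  · have e1 := h.zero (k := k.castSucc) (by omega)
    have e2 := h.one (k := k.succ) (by omega) (by omega)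
    refine Or.inr (Or.inr (Or.inl ⟨?_, ?_, ?_, ?_⟩)) <;> omega
  rcases Nat.lt_or_ge c₂ k.val with h2 | h2
  · rcases Nat.lt_or_ge (c₂ + 1) k.val with h3 | h3
    · have e1 := h.two (k := k.castSucc) (by omega)
      have e2 := h.two (k := k.succ) (by omega)
      refine Or.inr (Or.inr (Or.inr (Or.inr (Or.inr ⟨?_, ?_, ?_, ?_⟩)))) <;> omega
    · have e1 := h.one (k := k.castSucc) (by omega) (by omega)
      have e2 := h.two (k := k.succ) (by omega)
      refine Or.inr (Or.inr (Or.inr (Or.inr (Or.inl ⟨?_, ?_, ?_, ?_⟩)))) <;> omega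
  · have e1 := h.one (k := k.castSucc) (by omega) (by omega)
    have e2 := h.one (k := k.succ) (by omega) (by omega)
    refine Or.inr (Or.inr (Or.inr (Or.inl ⟨?_, ?_, ?_, ?_, ?_⟩))) <;> omega

theorem rel_of_back {n : ℕ} {p : Fin (2 + n + 1) → Cell 2 n} (hp : IsPath p) {c₁ c₂ : ℕ}
    (hc : c₁ ≤ c₂) (hc₂ : c₂ ≤ n) (h : Rows p c₁ c₂) {T : Cell 2 n ≃ Fin ((2 + 1) * (n + 1))}
    (hs : IsSYT T) (hT : Produces T p) {a b : Cell 2 n} (hr : rel c₁ c₂ a b) : T a < T b := by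
  obtain ⟨s1, s2⟩ := hs
  have ha := a.2.isLt
  have hb := b.2.isLt
  rcases hr with hr | hr | hr | hr | hr | hr
  · have e : b = (a.1, b.2) := Prod.ext (Fin.ext hr.1.symm) rfl
    rw [e]
    exact s2 a.1 a.2 b.2 (by rw [Fin.lt_def]; omega)
  · have e : b = (b.1, a.2) := Prod.ext rfl (Fin.ext hr.2.symm)
    rw [e]
    exact s1 a.1 b.1 a.2 (by rw [Fin.lt_def]; omega)
  · obtain ⟨h1, h2, h3, h4⟩ := hr
    have v0 : c₁ < 2 + n := by omega
    have e1 := h.zero (k := Fin.castSucc ⟨c₁, v0⟩) le_rfl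
    have e2 := h.one (k := Fin.succ ⟨c₁, v0⟩) (Nat.lt_succ_self _) (by
      show c₁ + 1 ≤ c₂ + 1
      omega)
    refine use_prod hp hT ⟨c₁, v0⟩ ?_ ?_ ?_ ?_ ?_
    · rw [h2, e1]
    · show _ = c₁
      omega
    · show _ = c₁
      omega
    · right
      rw [h1, e2]
    · omega
  · obtain ⟨h1, h2, h3, h4, h5⟩ := hr
    have v0 : a.2.val < 2 + n := by omega
    have e1 := h.one (k := Fin.castSucc ⟨a.2.val, v0⟩) h3 (by
      show a.2.val ≤ c₂ + 1
      omega)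
    have e2 := h.one (k := Fin.succ ⟨a.2.val, v0⟩) (by
      show c₁ < a.2.val + 1
      omega) (by
      show a.2.val + 1 ≤ c₂ + 1
      omega)
    refine use_prod hp hT ⟨a.2.val, v0⟩ ?_ ?_ ?_ ?_ ?_
    · rw [h2, e1]
    · show _ = a.2.val
      omega
    · show _ = a.2.val
      omega
    · left
      rw [h1, e2]
    · omega
  · obtain ⟨h1, h2, h3, h4⟩ := hr
    have v0 : c₂ + 1 < 2 + n := by omega
    have e1 := h.one (k := Fin.castSucc ⟨c₂ + 1, v0⟩) (by
      show c₁ < c₂ + 1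
      omega) le_rfl
    have e2 := h.two (k := Fin.succ ⟨c₂ + 1, v0⟩) (Nat.lt_succ_self _)
    refine use_prod hp hT ⟨c₂ + 1, v0⟩ ?_ ?_ ?_ ?_ ?_
    · rw [h2, e1]
    · show _ = c₂ + 1
      omega
    · show _ = c₂ + 1
      omega
    · right
      rw [h1, e2]
    · omega
  · obtain ⟨h1, h2, h3, h4⟩ := hr
    have v0 : a.2.val + 1 < 2 + n := by omega
    have e1 := h.two (k := Fin.castSucc ⟨a.2.val + 1, v0⟩) (by
      show c₂ + 1 < a.2.val + 1
      omega)
    have e2 := h.two (k := Fin.succ ⟨a.2.val + 1, v0⟩) (by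
      show c₂ + 1 < a.2.val + 1 + 1
      omega)
    refine use_prod hp hT ⟨a.2.val + 1, v0⟩ ?_ ?_ ?_ ?_ ?_
    · rw [h2, e1]
    · show _ = a.2.val + 1
      omega
    · show _ = a.2.val + 1
      omega
    · left
      rw [h1, e2]
    · omega

theorem rel_iff {n : ℕ} {p : Fin (2 + n + 1) → Cell 2 n} (hp : IsPath p) {c₁ c₂ : ℕ}
    (hc : c₁ ≤ c₂) (hc₂ : c₂ ≤ n) (h : Rows p c₁ c₂) (T : Cell 2 n ≃ Fin ((2 + 1) * (n + 1))) :
    (∀ a b, rel c₁ c₂ a b → T a < T b) ↔ IsSYT T ∧ Produces T p := by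
  constructor
  · intro hr
    refine ⟨⟨fun i i' j hi => ?_, fun i j j' hj => ?_⟩, hp.2.1, fun k => ⟨hp.2.2 k, fun u hu => ?_⟩⟩
    · have hm : StrictMono fun i : Fin (2 + 1) => T (i, j) := by
        rw [Fin.strictMono_iff_lt_succ]
        intro i
        exact hr _ _ (Or.inr (Or.inl ⟨rfl, rfl⟩))
      exact hm hi
    · have hm : StrictMono fun j : Fin (n + 1) => T (i, j) := by
        rw [Fin.strictMono_iff_lt_succ]
        intro j
        exact hr _ _ (Or.inl ⟨rfl, rfl⟩)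
      exact hm hj
    · by_cases he : u.1.val = (p k.castSucc).1.val
      · have c1 := coords hp k.castSucc
        have c2 := coords hp k.succ
        rw [Fin.val_castSucc] at c1
        rw [Fin.val_succ] at c2
        have : u = p k.castSucc := by
          refine Prod.ext (Fin.ext he) (Fin.ext ?_)
          unfold Step at hu
          omega
        rw [this]
      · exact (hr _ _ (back_of_rel hp hc h k u hu he)).le
  · rintro ⟨hs, hT⟩ a b hr
    exact rel_of_back hp hc hc₂ h hs hT hr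

theorem N_eq {n : ℕ} {p : Fin (2 + n + 1) → Cell 2 n} (hp : IsPath p) {c₁ c₂ : ℕ}
    (hc : c₁ ≤ c₂) (hc₂ : c₂ ≤ n) (h : Rows p c₁ c₂) : N p = W c₁ c₂ n n n := by
  have e1 := cnt_top (n := n) hc hc₂ ((2 + 1) * (n + 1)) (by ring)
  have e2 := card_le (rel (n := n) c₁ c₂) (rel_irrefl c₁ c₂) (N := (2 + 1) * (n + 1))
  rw [← e1, ← e2]
  unfold N
  exact Nat.card_congr (Equiv.subtypeEquivRight fun T => (rel_iff hp hc hc₂ h T).symm)

theorem path_ext {n : ℕ} {p q : Fin (2 + n + 1) → Cell 2 n} (hp : IsPath p) (hq : IsPath q)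
    {c₁ c₂ : ℕ} (h : Rows p c₁ c₂) (h' : Rows q c₁ c₂) : p = q := by
  funext k
  have e1 : (p k).1.val = (q k).1.val := by
    rcases Nat.lt_or_ge c₁ k.val with h1 | h1
    · rcases Nat.lt_or_ge (c₂ + 1) k.val with h2 | h2
      · rw [h.two h2, h'.two h2]
      · rw [h.one h1 h2, h'.one h1 h2]
    · rw [h.zero h1, h'.zero h1]
  have e3 := coords hp k
  have e4 := coords hq k
  exact Prod.ext (Fin.ext e1) (Fin.ext (by omega))

theorem box3 (n : ℕ) : BoxStatement 2 n := by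
  intro p p₁ p₂ hp hp₁ hp₂ ⟨k₁, hk₁⟩ ⟨k₂, hk₂⟩
  obtain ⟨a, b, hab, hb, h⟩ := path3 hp
  rcases Nat.eq_zero_or_pos b with h0 | h0
  · have : p = p₂ := by
      obtain ⟨a'', b'', hab'', hb'', h''⟩ := path3 hp₂
      have e1 := coords hp₂ k₂
      have e2 := (h'' k₂).2.2.1 (by rw [hk₂]; rfl)
      rw [hk₂] at e1
      have e3 : 2 + 0 = k₂.val := e1
      have hb0 : b'' = 0 := by omega
      have ha0 : a'' = 0 := by omega
      have ha1 : a = 0 := by omega
      rw [ha1, h0] at h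
      rw [ha0, hb0] at h''
      exact path_ext hp hp₂ h h''
    rw [this]
    exact le_max_right _ _
  · refine le_trans ?_ (le_max_left _ _)
    obtain ⟨a', b', hab', hb', h'⟩ := path3 hp₁
    have e1 := coords hp₁ k₁
    have e2 := (h' k₁).1.1 (by rw [hk₁]; rfl)
    rw [hk₁] at e1
    have e3 : 0 + n = k₁.val := e1
    have ha : a' = n := by omega
    have hbn : b' = n := by omega
    rw [ha, hbn] at h'
    rw [N_eq hp hab hb h, N_eq hp₁ le_rfl le_rfl h']
    refine le_trans (W_le hab hb h0) ?_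
    rw [W_eq, if_pos ⟨rfl, rfl⟩]
    exact Nat.le_add_right _ _

end Pool.Agent.Lib_helper5.TC
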