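import Pool.Agent.Lib_helper5.TC.Three

/-!
# Boxes with one or two rows, transposition
-/

set_option autoImplicit false

namespace Pool.Agent.Lib_helper5.TC

open Finset

theorem cnt_map {α β : Type*} [DecidableEq α] [Fintype α] [DecidableEq β] [Fintype β] (ι : α ↪ β)
    (r : β → β → Prop) [DecidableRel r] (r' : α → α → Prop) [DecidableRel r']
    (hr : ∀ a b, r' a b ↔ r (ι a) (ι b)) :
    ∀ (k : ℕ) (S : Finset α), cnt r' k S = cnt r k (S.map ι) := by
  intro k
  induction k with
  | zero =>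
    intro S
    show (if S = ∅ then 1 else 0) = if S.map ι = ∅ then 1 else 0
    by_cases h : S = ∅
    · rw [if_pos h, if_pos (by rw [h]; rfl)]
    · rw [if_neg h, if_neg (fun h' => h (Finset.map_eq_empty.1 h'))]
  | succ k ih =>
    intro S
    show ∑ a ∈ S.filter (fun a => ∀ b ∈ S, ¬ r' a b), cnt r' k (S.erase a) =
      ∑ a ∈ (S.map ι).filter (fun a => ∀ b ∈ S.map ι, ¬ r a b), cnt r k ((S.map ι).erase a)
    rw [Finset.filter_map, Finset.sum_map]
    refine Finset.sum_congr ?_ fun a _ => ?_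
    · ext a
      rw [mem_filter, mem_filter]
      refine and_congr_right fun _ => ?_
      constructor
      · intro h b hb
        rw [mem_map] at hb
        obtain ⟨b', hb', rfl⟩ := hb
        rw [← hr]
        exact h b' hb'
      · intro h b hb
        rw [hr]
        exact h (ι b) (mem_map_of_mem ι hb)
    · rw [ih, Finset.map_erase]

/-- the first two rows -/
def emb (n : ℕ) : Fin 2 × Fin (n + 1) ↪ Fin 3 × Fin (n + 1) :=
  ⟨fun a => (a.1.castSucc, a.2), fun a b h => by
    have h1 := congrArg Prod.fst h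
    have h2 := congrArg Prod.snd h
    exact Prod.ext (Fin.castSucc_injective _ h1) h2⟩

theorem emb_fst {n : ℕ} (a : Fin 2 × Fin (n + 1)) : (emb n a).1.val = a.1.val := rfl

theorem emb_snd {n : ℕ} (a : Fin 2 × Fin (n + 1)) : (emb n a).2.val = a.2.val := rfl

/-- the order relations in two rows -/
def rel2 {n : ℕ} (c : ℕ) (a b : Fin 2 × Fin (n + 1)) : Prop :=
  (a.1.val = b.1.val ∧ a.2.val + 1 = b.2.val) ∨
  (a.1.val + 1 = b.1.val ∧ a.2.val = b.2.val) ∨
  (a.1.val = 1 ∧ b.1.val = 0 ∧ a.2.val + 1 = c ∧ b.2.val = c) ∨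
  (a.1.val = 0 ∧ b.1.val = 1 ∧ c < a.2.val ∧ b.2.val + 1 = a.2.val)

instance {n : ℕ} (c : ℕ) : DecidableRel (rel2 (n := n) c) := fun a b => by
  unfold rel2; infer_instance

theorem rel2_irrefl {n : ℕ} (c : ℕ) (a : Fin 2 × Fin (n + 1)) : ¬ rel2 c a a := by
  unfold rel2; omega

theorem rel2_emb {n : ℕ} (c : ℕ) (a b : Fin 2 × Fin (n + 1)) :
    rel2 c a b ↔ rel c n (emb n a) (emb n b) := by
  unfold rel2 rel
  rw [emb_fst, emb_fst, emb_snd, emb_snd]
  have h1 := a.1.isLt
  have h2 := b.1.isLt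
  have h3 := a.2.isLt
  have h4 := b.2.isLt
  constructor
  · rintro (h | h | h | h)
    · exact Or.inl h
    · exact Or.inr (Or.inl h)
    · exact Or.inr (Or.inr (Or.inl h))
    · exact Or.inr (Or.inr (Or.inr (Or.inl ⟨h.1, h.2.1, h.2.2.1, by omega, h.2.2.2⟩)))
  · rintro (h | h | h | h | h | h)
    · exact Or.inl h
    · exact Or.inr (Or.inl h)
    · exact Or.inr (Or.inr (Or.inl h))
    · exact Or.inr (Or.inr (Or.inr ⟨h.1, h.2.1, h.2.2.1, h.2.2.2.2⟩))
    · omega
    · omega

theorem cnt_two {n c : ℕ} (hc : c ≤ n) (N : ℕ) (hN : N = (n + 1) + (n + 1)) :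
    cnt (rel2 (n := n) c) N univ = U c n n 0 := by
  rw [cnt_map (emb n) (rel c n) (rel2 c) (rel2_emb c)]
  have e : (univ : Finset (Fin 2 × Fin (n + 1))).map (emb n) = A n (n + 1) (n + 1) 0 := by
    ext a
    rw [mem_map, mem_A]
    have h1 := a.1.isLt
    have h2 := a.2.isLt
    constructor
    · rintro ⟨b, _, rfl⟩
      have h3 := b.1.isLt
      rw [emb_fst, emb_snd]
      have h4 := b.2.isLt
      omega
    · intro h
      have h3 : a.1.val < 2 := by omega
      exact ⟨(⟨a.1.val, h3⟩, a.2), mem_univ _, rfl⟩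
  rw [e]
  have e1 : cnt (rel c n) N (A n (n + 1) (n + 1) 0) = g n c n (n + 1) (n + 1) 0 := by
    unfold g
    rw [hN]
    rfl
  rw [e1, g_eq le_rfl le_rfl (Nat.zero_le _) (by omega), if_neg (by omega), if_pos (by omega),
    if_neg (by omega), zero_add, add_zero, Nat.add_sub_cancel,
    g1 hc _ _ _ _ rfl (Nat.zero_le _) (Nat.lt_succ_self n) le_rfl hc le_rfl]
  rfl

/-- the rows of the path -/
theorem path2 {n : ℕ} {p : Fin (1 + n + 1) → Cell 1 n} (hp : IsPath p) :
    ∃ c, c ≤ n ∧ ∀ k, ((p k).1.val = 0 ↔ k.val ≤ c) ∧ ((p k).1.val = 1 ↔ c < k.val) := by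
  classical
  set R : ℕ → ℕ := fun k => if h : k < 1 + n + 1 then (p ⟨k, h⟩).1.val else 1 with hR
  have hRk : ∀ k : Fin (1 + n + 1), R k.val = (p k).1.val := fun k => by
    rw [hR]
    show (if h : k.val < 1 + n + 1 then (p ⟨k.val, h⟩).1.val else 1) = _
    rw [dif_pos k.isLt]
  have hs : ∀ k, k < 1 + n → R k ≤ R (k + 1) := by
    intro k hk
    have h4 := hRk (Fin.castSucc ⟨k, hk⟩)
    have h5 := hRk (Fin.succ ⟨k, hk⟩)
    have h6 := hp.2.2 ⟨k, hk⟩
    unfold Step at h6
    have h4' : R k = (p (Fin.castSucc ⟨k, hk⟩)).1.val := h4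
    have h5' : R (k + 1) = (p (Fin.succ ⟨k, hk⟩)).1.val := h5
    omega
  have hmono : ∀ d k, k + d ≤ 1 + n → R k ≤ R (k + d) := by
    intro d
    induction d with
    | zero => intro k _; exact le_rfl
    | succ d ih =>
      intro k hk
      exact (ih k (by omega)).trans (hs (k + d) (by omega))
  have h0 : R 0 = 0 := by
    have := hRk 0
    rw [hp.1] at this
    exact this
  have hM : R (1 + n) = 1 := by
    have := hRk (Fin.last (1 + n))
    rw [hp.2.1] at this
    exact this
  set c := Nat.findGreatest (fun k => R k = 0) (1 + n) with hc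
  have e1 : R c = 0 := Nat.findGreatest_spec (P := fun k => R k = 0) (Nat.zero_le _) h0
  have b1 : c ≤ 1 + n := Nat.findGreatest_le _
  have g1 : ∀ k, c < k → k ≤ 1 + n → R k ≠ 0 := fun k h1 h2 h3 =>
    Nat.findGreatest_is_greatest h1 h2 h3
  have c1 : c ≤ n := by
    by_contra h
    have : c = 1 + n := by omega
    rw [this, hM] at e1
    omega
  refine ⟨c, c1, fun k => ?_⟩
  have hk := k.isLt
  have hr := (p k).1.isLt
  rw [← hRk] at hr ⊢
  rcases Nat.lt_or_ge c k.val with h | h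
  · have h1 := g1 k.val h (by omega)
    omega
  · obtain ⟨d, hd⟩ := Nat.exists_eq_add_of_le h
    have h1 := hmono d k.val (by omega)
    rw [← hd] at h1
    omega

theorem rel2_iff {n : ℕ} {p : Fin (1 + n + 1) → Cell 1 n} (hp : IsPath p) {c : ℕ}
    (hc : c ≤ n) (h : ∀ k, ((p k).1.val = 0 ↔ k.val ≤ c) ∧ ((p k).1.val = 1 ↔ c < k.val))
    (T : Cell 1 n ≃ Fin ((1 + 1) * (n + 1))) :
    (∀ a b, rel2 c a b → T a < T b) ↔ IsSYT T ∧ Produces T p := by
  constructor
  · intro hr
    refine ⟨⟨fun i i' j hi => ?_, fun i j j' hj => ?_⟩, hp.2.1, fun k => ⟨hp.2.2 k, fun u hu => ?_⟩⟩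
    · have hm : StrictMono fun i : Fin (1 + 1) => T (i, j) := by
        rw [Fin.strictMono_iff_lt_succ]
        intro i
        exact hr _ _ (Or.inr (Or.inl ⟨rfl, rfl⟩))
      exact hm hi
    · have hm : StrictMono fun j : Fin (n + 1) => T (i, j) := by
        rw [Fin.strictMono_iff_lt_succ]
        intro j
        exact hr _ _ (Or.inl ⟨rfl, rfl⟩)
      exact hm hj
    · have c1 := coords hp k.castSucc
      have c2 := coords hp k.succ
      rw [Fin.val_castSucc] at c1
      rw [Fin.val_succ] at c2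
      by_cases he : u.1.val = (p k.castSucc).1.val
      · have : u = p k.castSucc := by
          refine Prod.ext (Fin.ext he) (Fin.ext ?_)
          unfold Step at hu
          omega
        rw [this]
      · refine (hr _ _ ?_).le
        have v1 : k.castSucc.val = k.val := rfl
        have v2 : k.succ.val = k.val + 1 := rfl
        unfold Step at hu
        unfold rel2
        rcases Nat.lt_or_ge k.val c with h1 | h1
        · have e1 := (h k.castSucc).1.2 (by omega)
          have e2 := (h k.succ).1.2 (by omega)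
          exfalso
          omega
        rcases h1.eq_or_lt with h1 | h1
        · have e1 := (h k.castSucc).1.2 (by omega)
          have e2 := (h k.succ).2.2 (by omega)
          refine Or.inr (Or.inr (Or.inl ⟨?_, ?_, ?_, ?_⟩)) <;> omega
        · have e1 := (h k.castSucc).2.2 (by omega)
          have e2 := (h k.succ).2.2 (by omega)
          refine Or.inr (Or.inr (Or.inr ⟨?_, ?_, ?_, ?_⟩)) <;> omega
  · rintro ⟨⟨s1, s2⟩, hT⟩ a b hr
    have ha := a.2.isLt
    have hb := b.2.isLt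
    rcases hr with hr | hr | hr | hr
    · have e : b = (a.1, b.2) := Prod.ext (Fin.ext hr.1.symm) rfl
      rw [e]
      exact s2 a.1 a.2 b.2 (by rw [Fin.lt_def]; omega)
    · have e : b = (b.1, a.2) := Prod.ext rfl (Fin.ext hr.2.symm)
      rw [e]
      exact s1 a.1 b.1 a.2 (by rw [Fin.lt_def]; omega)
    · obtain ⟨h1, h2, h3, h4⟩ := hr
      have v0 : c < 1 + n := by omega
      have e1 := (h (Fin.castSucc ⟨c, v0⟩)).1.2 le_rfl
      have e2 := (h (Fin.succ ⟨c, v0⟩)).2.2 (Nat.lt_succ_self _)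
      refine use_prod hp hT ⟨c, v0⟩ ?_ ?_ ?_ ?_ ?_
      · rw [h2, e1]
      · show _ = c
        omega
      · show _ = c
        omega
      · right
        rw [h1, e2]
      · omega
    · obtain ⟨h1, h2, h3, h4⟩ := hr
      have v0 : a.2.val < 1 + n := by omega
      have e1 := (h (Fin.castSucc ⟨a.2.val, v0⟩)).2.2 h3
      have e2 := (h (Fin.succ ⟨a.2.val, v0⟩)).2.2 (by
        show c < a.2.val + 1
        omega)
      refine use_prod hp hT ⟨a.2.val, v0⟩ ?_ ?_ ?_ ?_ ?_
      · rw [h2, e1]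
      · show _ = a.2.val
        omega
      · show _ = a.2.val
        omega
      · left
        rw [h1, e2]
      · omega

theorem box2 (n : ℕ) : BoxStatement 1 n := by
  intro p p₁ p₂ hp hp₁ hp₂ ⟨k₁, hk₁⟩ _
  refine le_trans ?_ (le_max_left _ _)
  have key2 : ∀ {p : Fin (1 + n + 1) → Cell 1 n}, IsPath p → ∀ {c : ℕ}, c ≤ n →
      (∀ k, ((p k).1.val = 0 ↔ k.val ≤ c) ∧ ((p k).1.val = 1 ↔ c < k.val)) →
      N p = U c n n 0 := by
    intro p hp c hc h
    have e1 := cnt_two (n := n) hc ((1 + 1) * (n + 1)) (by ring)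
    have e2 := card_le (rel2 (n := n) c) (rel2_irrefl c) (N := (1 + 1) * (n + 1))
    rw [← e1, ← e2]
    unfold N
    exact Nat.card_congr (Equiv.subtypeEquivRight fun T => (rel2_iff hp hc h T).symm)
  obtain ⟨a, ha, h⟩ := path2 hp
  obtain ⟨b, hb, h'⟩ := path2 hp₁
  have e1 := coords hp₁ k₁
  have e2 := (h' k₁).1.1 (by rw [hk₁]; rfl)
  rw [hk₁] at e1
  have e3 : 0 + n = k₁.val := e1
  have hbn : b = n := by omega
  rw [hbn] at h'
  rw [key2 hp ha h, key2 hp₁ le_rfl h', U_bb n 0, if_neg (lt_irrefl 0), add_zero]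
  rcases ha.eq_or_lt with h1 | h1
  · rw [h1, U_bb n 0, if_neg (lt_irrefl 0), add_zero]
  · exact key a n n 0 (Nat.zero_le _) le_rfl h1

theorem box1 (n : ℕ) : BoxStatement 0 n := by
  intro p p₁ p₂ hp hp₁ hp₂ _ _
  have : p = p₁ := by
    funext k
    have e1 := coords hp k
    have e2 := coords hp₁ k
    have h1 := (p k).1.isLt
    have h2 := (p₁ k).1.isLt
    exact Prod.ext (Fin.ext (by omega)) (Fin.ext (by omega))
  rw [this]
  exact le_max_left _ _

end Pool.Agent.Lib_helper5.TC
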